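import Mathlib

namespace Pool.Agent.Lib.MP_19b6b2_an

open scoped InnerProductSpace

variable {H : Type*} [NormedAddCommGroup H] [InnerProductSpace ℝ H]

/-- A dictionary: unit vectors whose span is dense. -/
def IsDictionary (D : Set H) : Prop :=
  (∀ g ∈ D, ‖g‖ = 1) ∧ closure (Submodule.span ℝ D : Set H) = Set.univ

/-- Finite sums of dictionary elements with coefficients of total absolute value at most one. -/
def A1zero (D : Set H) : Set H :=
  {f | ∃ (n : ℕ) (c : Fin n → ℝ) (g : Fin n → H),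
    (∀ i, g i ∈ D) ∧ ∑ i, |c i| ≤ 1 ∧ f = ∑ i, c i • g i}

/-- The class `A_1(D)`. -/
def A1 (D : Set H) : Set H := closure (A1zero D)

/-- The approximants `G_m`; `φ m` is the element picked at step `m + 1`. -/
noncomputable def approx (f : H) (φ : ℕ → H) : ℕ → H
  | 0 => 0
  | m + 1 => approx f φ m + ⟪f - approx f φ m, φ m⟫_ℝ • φ m

/-- The first `N` picks (all of them for `N = ⊤`) follow the pure greedy rule. -/
def IsRealization (D : Set H) (f : H) (φ : ℕ → H) (N : ℕ∞) : Prop :=
  ∀ m : ℕ, (m : ℕ∞) < N → φ m ∈ D ∧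
    ∀ g ∈ D, |⟪f - approx f φ m, g⟫_ℝ| ≤ |⟪f - approx f φ m, φ m⟫_ℝ|

/-- The worst error after `m` steps over all dictionaries, all `f` in `A_1(D)` and all
realizations that run for `N` steps. -/
noncomputable def worstError (H : Type*) [NormedAddCommGroup H] [InnerProductSpace ℝ H]
    (N : ℕ∞) (m : ℕ) : ℝ :=
  sSup {e | ∃ (D : Set H) (f : H) (φ : ℕ → H),
    IsDictionary D ∧ f ∈ A1 D ∧ IsRealization D f φ N ∧ e = ‖f - approx f φ m‖}

end Pool.Agent.Lib.MP_19b6b2_an
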