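import Mathlib

namespace Pool.Agent.Lib.MP_19b6b2_an

open Finset MeasureTheory

/-- Weighted diagonal dominance gives a nonnegative quadratic form. -/
lemma form_nonneg_of_dominant (N : ℕ) (R : ℕ → ℕ → ℝ) (p : ℕ → ℝ) (hp : ∀ k, 0 < p k)
    (hs : ∀ k n, R k n = R n k)
    (hd : ∀ k, k < N → ∑ n ∈ (range N).erase k, |R k n| * p n ≤ R k k * p k) (u : ℕ → ℝ) :
    0 ≤ ∑ k ∈ range N, ∑ n ∈ range N, R k n * u k * u n := by
  classical
  set T : ℕ → ℕ → ℝ := fun k n => if k = n then 0 else |R k n| * (u k ^ 2 * p n / p k) with hT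
  have h1 : ∀ k n, (if k = n then R k k * u k ^ 2 else 0) - (T k n + T n k) / 2
      ≤ R k n * u k * u n := by
    intro k n
    by_cases h : k = n
    · subst h; simp [hT]; nlinarith
    · have h' : ¬ n = k := fun e => h e.symm
      simp only [hT, h, h', if_false]
      rw [hs n k]
      have hk := hp k
      have hn := hp n
      have key : 2 * |u k * u n| ≤ u k ^ 2 * p n / p k + u n ^ 2 * p k / p n := by
        rw [div_add_div _ _ hk.ne' hn.ne', le_div_iff₀ (by positivity), abs_mul]
        rw [← sq_abs (u k), ← sq_abs (u n)]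
        nlinarith [sq_nonneg (|u k| * p n - |u n| * p k)]
      have h3 : -(|R k n| * |u k * u n|) ≤ R k n * u k * u n := by
        rw [← abs_mul, ← mul_assoc]; exact neg_abs_le _
      have h4 := mul_le_mul_of_nonneg_left key (abs_nonneg (R k n))
      nlinarith
  have h2 : ∑ k ∈ range N, ∑ n ∈ range N, T n k = ∑ k ∈ range N, ∑ n ∈ range N, T k n :=
    sum_comm
  have h3 : ∑ k ∈ range N, ∑ n ∈ range N,
      ((if k = n then R k k * u k ^ 2 else 0) - (T k n + T n k) / 2)
      = ∑ k ∈ range N, (R k k * u k ^ 2 - ∑ n ∈ range N, T k n) := by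
    simp only [sum_sub_distrib, add_div, sum_add_distrib, ← sum_div]
    rw [h2]
    have : ∑ k ∈ range N, ∑ n ∈ range N, (if k = n then R k k * u k ^ 2 else 0)
        = ∑ k ∈ range N, R k k * u k ^ 2 := by
      refine sum_congr rfl fun k hk => ?_
      rw [sum_ite_eq]; simp [hk]
    rw [this]; ring
  refine le_trans ?_ (sum_le_sum fun k _ => sum_le_sum fun n _ => h1 k n)
  rw [h3]
  refine sum_nonneg fun k hk => ?_
  have hk' := hd k (mem_range.mp hk)
  have h5 : ∑ n ∈ range N, T k n = (∑ n ∈ (range N).erase k, |R k n| * p n) * (u k ^ 2 / p k) := by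
    rw [← add_sum_erase _ _ hk, sum_mul]
    simp only [hT, if_true, zero_add]
    refine sum_congr rfl fun n hn => ?_
    have : ¬ k = n := fun e => (ne_of_mem_erase hn) e.symm
    simp only [this, if_false]; ring
  rw [h5]
  have h6 := mul_le_mul_of_nonneg_right hk' (div_nonneg (sq_nonneg (u k)) (hp k).le)
  have h7 : R k k * p k * (u k ^ 2 / p k) = R k k * u k ^ 2 := by
    have := (hp k).ne'; field_simp
  linarith

/-- The overlap kernel of intervals is positive semidefinite. -/
lemma overlap_form_nonneg (N : ℕ) (l r : ℕ → ℝ) (u : ℕ → ℝ) :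
    0 ≤ ∑ k ∈ range N, ∑ n ∈ range N,
      max (min (r k) (r n) - max (l k) (l n)) 0 * u k * u n := by
  set I : ℕ → ℝ → ℝ := fun k => (Set.Icc (l k) (r k)).indicator fun _ => (1 : ℝ) with hI
  have hprod : ∀ k n, (fun t => I k t * I n t)
      = (Set.Icc (max (l k) (l n)) (min (r k) (r n))).indicator fun _ => (1 : ℝ) := by
    intro k n
    ext t
    rw [← Set.Icc_inter_Icc]
    exact (congrFun (Set.inter_indicator_one (M₀ := ℝ)) t).symm
  have hint : ∀ k n, Integrable (fun t => I k t * I n t) := by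
    intro k n
    rw [hprod]
    exact (integrable_indicator_iff measurableSet_Icc).2 (integrableOn_const (by simp))
  have hval : ∀ k n, ∫ t, I k t * I n t = max (min (r k) (r n) - max (l k) (l n)) 0 := by
    intro k n
    rw [hprod, integral_indicator measurableSet_Icc]
    simp [Measure.real, Real.volume_Icc, ENNReal.toReal_ofReal']
  have : ∑ k ∈ range N, ∑ n ∈ range N, max (min (r k) (r n) - max (l k) (l n)) 0 * u k * u n
      = ∫ t, ∑ k ∈ range N, ∑ n ∈ range N, (I k t * I n t) * (u k * u n) := by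
    rw [integral_finsetSum]
    · refine sum_congr rfl fun k _ => ?_
      rw [integral_finsetSum]
      · refine sum_congr rfl fun n _ => ?_
        rw [integral_mul_const, hval]; ring
      · intro n _; exact (hint k n).mul_const _
    · intro k _
      exact integrable_finsetSum _ fun n _ => (hint k n).mul_const _
  rw [this]
  refine integral_nonneg fun t => ?_
  have : ∑ k ∈ range N, ∑ n ∈ range N, (I k t * I n t) * (u k * u n)
      = (∑ k ∈ range N, I k t * u k) ^ 2 := by
    rw [sq, sum_mul_sum]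
    refine sum_congr rfl fun k _ => sum_congr rfl fun n _ => by ring
  simp only [this]
  positivity

lemma ramp_up {x y t h : ℝ} (hxy : y ≤ x) (hh : x - y ≤ h) :
    (x - y) * max (x - t) 0 ≤ (max (x - t + h) 0 ^ 2 - max (y - t + h) 0 ^ 2) / 2 := by
  rcases le_total (x - t) 0 with h1 | h1
  · rw [max_eq_right h1]
    have : max (y - t + h) 0 ≤ max (x - t + h) 0 := max_le_max_right _ (by linarith)
    have h0 : 0 ≤ max (y - t + h) 0 := le_max_right _ _
    nlinarith
  · rw [max_eq_left h1, max_eq_left (by linarith), max_eq_left (by linarith)]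
    nlinarith

lemma ramp_down {x y t : ℝ} (hxy : y ≤ x) :
    (x - y) * max (t - x) 0 ≤ (max (t - y) 0 ^ 2 - max (t - x) 0 ^ 2) / 2 := by
  rcases le_total (t - x) 0 with h1 | h1
  · rw [max_eq_right h1]
    have h0 : 0 ≤ max (t - y) 0 := le_max_right _ _
    nlinarith
  · rw [max_eq_left h1, max_eq_left (by linarith)]
    nlinarith

lemma sq_max_mono {x y : ℝ} (h : y ≤ x) : max y 0 ^ 2 ≤ max x 0 ^ 2 :=
  pow_le_pow_left₀ (le_max_right _ _) (max_le_max_right _ h) 2

/-- potential for indices after the row index -/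
noncomputable def psi1 (c x : ℝ) : ℝ :=
  2.6 * (-(max (0.93 * c - max x (0.78 * c)) 0) ^ 2 + max (x - 0.92 * c + 0.001 * c) 0 ^ 2
    + max (min x (0.789 * c) - 0.73 * c + 0.001 * c) 0 ^ 2)

lemma side1 {c x y M : ℝ} (hc : 0 < c) (hxy : y ≤ x) (hh : x - y ≤ 0.001 * c)
    (h0 : 0 ≤ M) (h1 : M ≤ 1.04 * c) (h2 : x ≤ 0.781 * c → M = 0)
    (h3 : 0.789 * c ≤ x → 0.99 * c ≤ M) :
    |M - 5.2 * max (x - 0.73 * c) 0| * (x - y) ≤ psi1 c x - psi1 c y := by
  have hA : (x - y) * (if 0.781 * c < x then max (0.93 * c - x) 0 else 0)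
      ≤ (max (0.93 * c - max y (0.78 * c)) 0 ^ 2 - max (0.93 * c - max x (0.78 * c)) 0 ^ 2) / 2 := by
    split_ifs with h
    · rw [max_eq_left (by linarith : 0.78 * c ≤ x), max_eq_left (by linarith : 0.78 * c ≤ y)]
      exact ramp_down hxy
    · have := sq_max_mono (show 0.93 * c - max x (0.78 * c) ≤ 0.93 * c - max y (0.78 * c) by
        linarith [max_le_max_right (0.78 * c) hxy])
      linarith
  have hB := ramp_up (t := 0.92 * c) hxy hh
  have hC : (x - y) * (if x < 0.789 * c then max (x - 0.73 * c) 0 else 0)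
      ≤ (max (min x (0.789 * c) - 0.73 * c + 0.001 * c) 0 ^ 2
        - max (min y (0.789 * c) - 0.73 * c + 0.001 * c) 0 ^ 2) / 2 := by
    split_ifs with h
    · rw [min_eq_left h.le, min_eq_left (by linarith : y ≤ 0.789 * c)]
      exact ramp_up hxy hh
    · have := sq_max_mono (show min y (0.789 * c) - 0.73 * c + 0.001 * c
          ≤ min x (0.789 * c) - 0.73 * c + 0.001 * c by
        linarith [min_le_min_right (0.789 * c) hxy])
      linarith
  have hD : |M - 5.2 * max (x - 0.73 * c) 0| ≤ 5.2 * ((if 0.781 * c < x then max (0.93 * c - x) 0 else 0)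
      + max (x - 0.92 * c) 0 + (if x < 0.789 * c then max (x - 0.73 * c) 0 else 0)) := by
    have e1 := le_max_left (x - 0.73 * c) 0
    have e2 := le_max_right (x - 0.73 * c) 0
    have e3 := le_max_left (x - 0.92 * c) 0
    have e4 := le_max_right (x - 0.92 * c) 0
    have e5 := le_max_left (0.93 * c - x) 0
    have e6 := le_max_right (0.93 * c - x) 0
    rw [abs_le]
    constructor
    · by_cases h : x < 0.789 * c
      · rw [if_pos h]; split_ifs <;> linarith
      · rw [if_neg h]
        have := h3 (not_lt.mp h)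
        rw [max_eq_left (by linarith : 0 ≤ x - 0.73 * c)]
        split_ifs <;> linarith
    · by_cases h : 0.781 * c < x
      · rw [if_pos h]; split_ifs <;> linarith
      · rw [if_neg h, h2 (not_lt.mp h)]; split_ifs <;> linarith
  have hE := mul_le_mul_of_nonneg_right hD (sub_nonneg.2 hxy)
  unfold psi1
  nlinarith

lemma psi1_bound {c x y : ℝ} (hc : 0 < c) (hx : x ≤ c) :
    psi1 c x - psi1 c y ≤ 0.085 * c ^ 2 := by
  have a1 : max (0.93 * c - max y (0.78 * c)) 0 ^ 2 ≤ (0.15 * c) ^ 2 := by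
    have := sq_max_mono (show 0.93 * c - max y (0.78 * c) ≤ 0.15 * c by
      linarith [le_max_right y (0.78 * c)])
    rwa [max_eq_left (by positivity : 0 ≤ 0.15 * c)] at this
  have a2 : max (x - 0.92 * c + 0.001 * c) 0 ^ 2 ≤ (0.081 * c) ^ 2 := by
    have := sq_max_mono (show x - 0.92 * c + 0.001 * c ≤ 0.081 * c by linarith)
    rwa [max_eq_left (by positivity : 0 ≤ 0.081 * c)] at this
  have a3 : max (min x (0.789 * c) - 0.73 * c + 0.001 * c) 0 ^ 2 ≤ (0.06 * c) ^ 2 := by
    have := sq_max_mono (show min x (0.789 * c) - 0.73 * c + 0.001 * c ≤ 0.06 * c by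
      linarith [min_le_right x (0.789 * c)])
    rwa [max_eq_left (by positivity : 0 ≤ 0.06 * c)] at this
  have b1 := sq_nonneg (max (0.93 * c - max x (0.78 * c)) 0)
  have b2 := sq_nonneg (max (y - 0.92 * c + 0.001 * c) 0)
  have b3 := sq_nonneg (max (min y (0.789 * c) - 0.73 * c + 0.001 * c) 0)
  unfold psi1
  nlinarith

/-- potential for indices before the row index -/
noncomputable def psi2 (c x : ℝ) : ℝ :=
  2.418 * max (min x (1.281 * c) - 1.075 * c + 0.002 * c) 0 ^ 2
    - 2.393 * max (1.0866 * c - x) 0 ^ 2 - 1.898 * max (1.37 * c - max x (1.265 * c)) 0 ^ 2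

lemma side2 {c x y M : ℝ} (hc : 0 < c) (hxy : y ≤ x) (hh : x - y ≤ 0.001 * y)
    (h0 : 0 ≤ M) (h1 : M ≤ 1.04 * x) (h2 : c ≤ 0.781 * x → M = 0)
    (h3 : 0.789 * x ≤ c → 0.99 * x ≤ M) :
    |M - 5.2 * max (c - 0.73 * x) 0| * (x - y) ≤ psi2 c x - psi2 c y := by
  have hA : (x - y) * (if 0.781 * x < c then max (x - 1.075 * c) 0 else 0)
      ≤ (max (min x (1.281 * c) - 1.075 * c + 0.002 * c) 0 ^ 2
        - max (min y (1.281 * c) - 1.075 * c + 0.002 * c) 0 ^ 2) / 2 := by
    split_ifs with h
    · rw [min_eq_left (by linarith : x ≤ 1.281 * c), min_eq_left (by linarith : y ≤ 1.281 * c)]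
      exact ramp_up hxy (by linarith)
    · have := sq_max_mono (show min y (1.281 * c) - 1.075 * c + 0.002 * c
          ≤ min x (1.281 * c) - 1.075 * c + 0.002 * c by
        linarith [min_le_min_right (1.281 * c) hxy])
      linarith
  have hB := ramp_down (t := 1.0866 * c) hxy
  have hC : (x - y) * (if c < 0.789 * x then max (1.37 * c - x) 0 else 0)
      ≤ (max (1.37 * c - max y (1.265 * c)) 0 ^ 2 - max (1.37 * c - max x (1.265 * c)) 0 ^ 2) / 2 := by
    split_ifs with h
    · rw [max_eq_left (by linarith : 1.265 * c ≤ x), max_eq_left (by linarith : 1.265 * c ≤ y)]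
      exact ramp_down hxy
    · have := sq_max_mono (show 1.37 * c - max x (1.265 * c) ≤ 1.37 * c - max y (1.265 * c) by
        linarith [max_le_max_right (1.265 * c) hxy])
      linarith
  have hD : |M - 5.2 * max (c - 0.73 * x) 0| ≤
      4.836 * (if 0.781 * x < c then max (x - 1.075 * c) 0 else 0)
      + 4.786 * max (1.0866 * c - x) 0
      + 3.796 * (if c < 0.789 * x then max (1.37 * c - x) 0 else 0) := by
    have e1 := le_max_left (c - 0.73 * x) 0
    have e2 := le_max_right (c - 0.73 * x) 0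
    have e3 := le_max_left (x - 1.075 * c) 0
    have e4 := le_max_right (x - 1.075 * c) 0
    have e5 := le_max_left (1.0866 * c - x) 0
    have e6 := le_max_right (1.0866 * c - x) 0
    have e7 := le_max_left (1.37 * c - x) 0
    have e8 := le_max_right (1.37 * c - x) 0
    have e9 : 5.2 * max (c - 0.73 * x) 0 ≤ 3.796 * max (1.37 * c - x) 0 := by
      rcases le_total (c - 0.73 * x) 0 with h | h
      · rw [max_eq_right h]; linarith
      · rw [max_eq_left h]; linarith
    rw [abs_le]
    constructor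
    · by_cases h : c < 0.789 * x
      · rw [if_pos h]; split_ifs <;> linarith
      · rw [if_neg h]
        have := h3 (not_lt.mp h)
        rw [max_eq_left (by linarith : 0 ≤ c - 0.73 * x)]
        split_ifs <;> linarith
    · by_cases h : 0.781 * x < c
      · rw [if_pos h]; split_ifs <;> linarith
      · rw [if_neg h, h2 (not_lt.mp h)]; split_ifs <;> linarith
  have hE := mul_le_mul_of_nonneg_right hD (sub_nonneg.2 hxy)
  unfold psi2
  nlinarith

lemma psi2_bound {c x y : ℝ} (hc : 0 < c) (hy : c ≤ y) :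
    psi2 c x - psi2 c y ≤ 0.145 * c ^ 2 := by
  have a1 : max (min x (1.281 * c) - 1.075 * c + 0.002 * c) 0 ^ 2 ≤ (0.208 * c) ^ 2 := by
    have := sq_max_mono (show min x (1.281 * c) - 1.075 * c + 0.002 * c ≤ 0.208 * c by
      linarith [min_le_right x (1.281 * c)])
    rwa [max_eq_left (by positivity : 0 ≤ 0.208 * c)] at this
  have a2 : max (1.0866 * c - y) 0 ^ 2 ≤ (0.0866 * c) ^ 2 := by
    have := sq_max_mono (show 1.0866 * c - y ≤ 0.0866 * c by linarith)
    rwa [max_eq_left (by positivity : 0 ≤ 0.0866 * c)] at this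
  have a3 : max (1.37 * c - max y (1.265 * c)) 0 ^ 2 ≤ (0.105 * c) ^ 2 := by
    have := sq_max_mono (show 1.37 * c - max y (1.265 * c) ≤ 0.105 * c by
      linarith [le_max_right y (1.265 * c)])
    rwa [max_eq_left (by positivity : 0 ≤ 0.105 * c)] at this
  have b1 := sq_nonneg (max (min y (1.281 * c) - 1.075 * c + 0.002 * c) 0)
  have b2 := sq_nonneg (max (1.0866 * c - x) 0)
  have b3 := sq_nonneg (max (1.37 * c - max x (1.265 * c)) 0)
  unfold psi2
  nlinarith

lemma sum_Ico_le_telescope (f Ψ : ℕ → ℝ) {a b : ℕ} (hab : a ≤ b)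
    (h : ∀ n, a ≤ n → n < b → f n ≤ Ψ n - Ψ (n + 1)) :
    ∑ n ∈ Ico a b, f n ≤ Ψ a - Ψ b := by
  induction b, hab using Nat.le_induction with
  | base => simp
  | succ b hab ih =>
    rw [sum_Ico_succ_top hab]
    have := ih fun n h1 h2 => h n h1 (by omega)
    have := h b hab (by omega)
    linarith

/-- A diagonal plus a band kernel is positive semidefinite. -/
theorem band_form_nonneg (w : ℕ → ℝ) (M : ℕ → ℕ → ℝ) (hw : ∀ n, 0 < w n)
    (hd : ∀ n, w (n + 1) < w n) (hstep : ∀ n, w n - w (n + 1) ≤ 0.001 * w (n + 1))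
    (hs : ∀ k n, M k n = M n k) (h0 : ∀ k n, k < n → 0 ≤ M k n)
    (h1 : ∀ k n, k < n → M k n ≤ 1.04 * w k)
    (h2 : ∀ k n, k < n → w n ≤ 0.781 * w k → M k n = 0)
    (h3 : ∀ k n, k < n → 0.789 * w k ≤ w n → 0.99 * w k ≤ M k n)
    (hdiag : ∀ k, 0.248 * w k ^ 2 ≤ M k k * (w k - w (k + 1))) (N : ℕ) (u : ℕ → ℝ) :
    0 ≤ ∑ k ∈ range N, ∑ n ∈ range N, M k n * u k * u n := by
  have hanti : Antitone w := (strictAnti_nat_of_succ_lt hd).antitone
  set S : ℕ → ℕ → ℝ := fun k n =>
    max (min (w k) (w n) - max (0.73 * w k) (0.73 * w n)) 0 with hS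
  have hSle : ∀ k n, k ≤ n → S k n = max (w n - 0.73 * w k) 0 := by
    intro k n h
    have := hanti h
    simp only [hS]
    rw [min_eq_right this, max_eq_left (by linarith : 0.73 * w n ≤ 0.73 * w k)]
  have hSs : ∀ k n, S k n = S n k := by
    intro k n; simp only [hS]; rw [min_comm, max_comm (0.73 * w k)]
  have hA := overlap_form_nonneg N (fun k => 0.73 * w k) w u
  have hB := form_nonneg_of_dominant N (fun k n => M k n - 5.2 * S k n)
    (fun k => w k - w (k + 1)) (fun k => sub_pos.2 (hd k))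
    (fun k n => by rw [hs k n, hSs k n]) ?_ u
  · have : ∑ k ∈ range N, ∑ n ∈ range N, M k n * u k * u n
        = ∑ k ∈ range N, ∑ n ∈ range N, (M k n - 5.2 * S k n) * u k * u n
          + 5.2 * ∑ k ∈ range N, ∑ n ∈ range N, S k n * u k * u n := by
      rw [mul_sum, ← sum_add_distrib]
      refine sum_congr rfl fun k _ => ?_
      rw [mul_sum, ← sum_add_distrib]
      refine sum_congr rfl fun n _ => by ring
    rw [this]
    have : 0 ≤ ∑ k ∈ range N, ∑ n ∈ range N, S k n * u k * u n := hA
    positivity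
  intro k hk
  have hsplit : (range N).erase k = Ico 0 k ∪ Ico (k + 1) N := by
    ext n; simp; omega
  have hdisj : Disjoint (Ico 0 k) (Ico (k + 1) N) := by
    rw [disjoint_left]; intro n; simp; omega
  rw [hsplit, sum_union hdisj]
  have hc := hw k
  have s1 : ∑ n ∈ Ico (k + 1) N, |M k n - 5.2 * S k n| * (w n - w (n + 1))
      ≤ psi1 (w k) (w (k + 1)) - psi1 (w k) (w N) := by
    refine sum_Ico_le_telescope _ (fun n => psi1 (w k) (w n)) hk fun n hn _ => ?_
    have hkn : k < n := hn
    rw [hSle k n hkn.le]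
    have e1 := hanti (show k ≤ n + 1 by omega)
    exact side1 hc (hd n).le (by linarith [hstep n]) (h0 k n hkn) (h1 k n hkn) (h2 k n hkn)
      (h3 k n hkn)
  have s2 : ∑ n ∈ Ico 0 k, |M k n - 5.2 * S k n| * (w n - w (n + 1))
      ≤ psi2 (w k) (w 0) - psi2 (w k) (w k) := by
    refine sum_Ico_le_telescope _ (fun n => psi2 (w k) (w n)) (Nat.zero_le k) fun n _ hn => ?_
    rw [hs k n, hSs k n, hSle n k hn.le]
    exact side2 hc (hd n).le (hstep n) (h0 n k hn) (h1 n k hn)
      (h2 n k hn) (h3 n k hn)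
  have b1 := psi1_bound (y := w N) hc (hd k).le
  have b2 := psi2_bound (x := w 0) hc (le_refl (w k))
  have b3 := hdiag k
  have b4 : S k k = 0.27 * w k := by
    rw [hSle k k le_rfl, max_eq_left (by linarith)]; ring
  have b5 := hstep k
  have b6 := hd k
  have b7 : w k * (w k - w (k + 1)) ≤ w k * (0.001 * w k) :=
    mul_le_mul_of_nonneg_left (by linarith) hc.le
  simp only [b4]
  nlinarith

end Pool.Agent.Lib.MP_19b6b2_an
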