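import Mathlib
import Pool.Agent.Lib.MP_19b6b2_an.Psd

namespace Pool.Agent.Lib.MP_19b6b2_an

open Finset Filter Topology

/-- Data for the extremal Gram kernel. -/
structure KData where
  a : ℕ → ℝ
  ρ : ℕ → ℝ
  B : ℕ → ℝ
  δ : ℕ → ℝ
  θ : ℝ

namespace KData

variable (d : KData)

noncomputable def w (n : ℕ) : ℝ := (d.B n)⁻¹

noncomputable def E (k n : ℕ) : ℝ := d.δ k * max (d.w n - d.θ * d.w k) 0

noncomputable def hat (k n : ℕ) : ℝ := d.a n * d.w n ^ 2 + ∑ i ∈ Ico k n, d.E i n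

noncomputable def hatS (k n : ℕ) : ℝ := d.hat (min k n) (max k n)

noncomputable def G (k n : ℕ) : ℝ := d.B k * d.B n * d.hatS k n

noncomputable def K (i j : ℕ) : ℝ :=
  d.hatS i j - d.hatS (i + 1) j - d.hatS i (j + 1) + d.hatS (i + 1) (j + 1)

structure Good : Prop where
  hB : ∀ k, 0 < d.B k
  hρ : ∀ k, 0 < d.ρ k
  hBs : ∀ k, d.B (k + 1) = d.B k + d.ρ k
  ha : ∀ k, 0 ≤ d.a k
  has : ∀ k, d.a (k + 1) = d.a k - d.ρ k ^ 2
  hδ : ∀ k, 0 ≤ d.δ k
  hθ : 0 ≤ d.θ
  hE : ∀ k, d.E k (k + 1) = d.a (k + 1) * d.w (k + 1) * (d.w k - d.w (k + 1))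
  c1 : ∀ k, d.δ k * (d.θ * d.w k) ≤ d.ρ k * d.w k - d.ρ (k + 1) * d.w (k + 1)
  c2 : ∀ n, d.B n * d.hat 0 n ≤ d.ρ n
  c3 : ∀ k n, k < n → d.B k * d.B n * d.E k n ≤ d.ρ k * d.ρ n + d.ρ k * (d.a n * d.w n)

variable {d}

lemma hatS_symm (k n : ℕ) : d.hatS k n = d.hatS n k := by
  unfold hatS; rw [min_comm, max_comm]

lemma hatS_of_le {k n : ℕ} (h : k ≤ n) : d.hatS k n = d.hat k n := by
  unfold hatS; rw [min_eq_left h, max_eq_right h]

lemma G_symm (k n : ℕ) : d.G k n = d.G n k := by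
  unfold G; rw [hatS_symm]; ring

lemma K_symm (k n : ℕ) : d.K k n = d.K n k := by
  unfold K
  rw [hatS_symm k n, hatS_symm (k + 1) n, hatS_symm k (n + 1), hatS_symm (k + 1) (n + 1)]; ring

lemma hat_succ {k n : ℕ} (h : k < n) : d.hat k n = d.hat (k + 1) n + d.E k n := by
  unfold hat; rw [sum_eq_sum_Ico_succ_bot h]; ring

lemma hat_self (n : ℕ) : d.hat n n = d.a n * d.w n ^ 2 := by simp [hat]

lemma K_of_lt {k n : ℕ} (h : k < n) : d.K k n = d.E k n - d.E k (n + 1) := by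
  unfold K
  rw [hatS_of_le h.le, hatS_of_le (show k + 1 ≤ n from h), hatS_of_le (show k ≤ n + 1 by omega),
    hatS_of_le (show k + 1 ≤ n + 1 by omega), hat_succ h, hat_succ (show k < n + 1 by omega)]
  ring

namespace Good

variable (h : d.Good)
include h

lemma w_pos (n : ℕ) : 0 < d.w n := inv_pos.2 (h.hB n)

lemma Bw (n : ℕ) : d.B n * d.w n = 1 := mul_inv_cancel₀ (h.hB n).ne'

lemma E_nonneg (k n : ℕ) : 0 ≤ d.E k n := mul_nonneg (h.hδ k) (le_max_right _ _)

lemma hat_ge (k n : ℕ) : d.a n * d.w n ^ 2 ≤ d.hat k n :=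
  le_add_of_nonneg_right (sum_nonneg fun i _ => h.E_nonneg i n)

lemma hat_nonneg (k n : ℕ) : 0 ≤ d.hat k n :=
  le_trans (mul_nonneg (h.ha n) (sq_nonneg _)) (h.hat_ge k n)

lemma hat_le_zero (k n : ℕ) : d.hat k n ≤ d.hat 0 n := by
  unfold hat
  gcongr
  · intro i _ _; exact h.E_nonneg i n
  · exact Nat.zero_le k

lemma hat_succ_self (n : ℕ) : d.hat n (n + 1) = d.a (n + 1) * d.w (n + 1) * d.w n := by
  rw [hat_succ (Nat.lt_succ_self n), hat_self, h.hE]; ring

lemma K_self (k : ℕ) : d.ρ k ^ 2 * d.w k ^ 2 ≤ d.K k k := by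
  unfold K
  rw [hatS_symm (k + 1) k, hatS_of_le le_rfl, hatS_of_le le_rfl, hatS_of_le (Nat.le_succ k),
    hat_self, hat_self, h.hat_succ_self]
  have h1 := h.has k
  have h2 := mul_nonneg (h.ha (k + 1)) (sq_nonneg (d.w k - d.w (k + 1)))
  have h3 : d.a k = d.a (k + 1) + d.ρ k ^ 2 := by linarith
  rw [h3]; nlinarith

lemma G_self (n : ℕ) : d.G n n = d.a n := by
  unfold G
  rw [hatS_of_le le_rfl, hat_self]
  have := h.Bw n
  calc _ = d.a n * (d.B n * d.w n) ^ 2 := by ring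
    _ = _ := by rw [this]; ring

lemma G_succ (n : ℕ) : d.G n (n + 1) = d.a (n + 1) := by
  unfold G
  rw [hatS_of_le (Nat.le_succ n), h.hat_succ_self]
  calc _ = d.a (n + 1) * (d.B n * d.w n) * (d.B (n + 1) * d.w (n + 1)) := by ring
    _ = _ := by rw [h.Bw, h.Bw]; ring

lemma BE (i n : ℕ) : d.B n * d.E i n = d.δ i * max (1 - d.θ * d.w i * d.B n) 0 := by
  unfold E
  rw [mul_left_comm, mul_max_of_nonneg _ _ (h.hB n).le, mul_zero, mul_sub, h.Bw]
  ring_nf

lemma step_n {k n : ℕ} (hkn : k ≤ n) :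
    0 ≤ d.B n * d.hat k n - d.B (n + 1) * d.hat k (n + 1) ∧
      d.B n * d.hat k n - d.B (n + 1) * d.hat k (n + 1) ≤ d.ρ k * d.w k * d.ρ n := by
  have e1 : d.B n * d.hat k n - d.B (n + 1) * d.hat k (n + 1)
      = d.ρ n * d.w n * d.ρ n
        + ∑ i ∈ Ico k n, (d.B n * d.E i n - d.B (n + 1) * d.E i (n + 1)) := by
    unfold hat
    rw [sum_Ico_succ_top hkn, h.hE, sum_sub_distrib, ← mul_sum, ← mul_sum]
    have h1 := h.Bw n
    have h2 := h.Bw (n + 1)
    have h3 : d.a n = d.a (n + 1) + d.ρ n ^ 2 := by linarith [h.has n]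
    rw [h3]
    linear_combination (d.a (n + 1) + d.ρ n ^ 2) * d.w n * h1 - d.a (n + 1) * d.w n * h2
  have e2 : ∀ i, 0 ≤ d.B n * d.E i n - d.B (n + 1) * d.E i (n + 1) ∧
      d.B n * d.E i n - d.B (n + 1) * d.E i (n + 1)
        ≤ (d.ρ i * d.w i - d.ρ (i + 1) * d.w (i + 1)) * d.ρ n := by
    intro i
    rw [h.BE, h.BE, h.hBs n, ← mul_sub]
    have p1 : 0 ≤ d.θ * d.w i * d.ρ n := mul_nonneg (mul_nonneg h.hθ (h.w_pos i).le) (h.hρ n).le
    have p2 : max (1 - d.θ * d.w i * (d.B n + d.ρ n)) 0 ≤ max (1 - d.θ * d.w i * d.B n) 0 :=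
      max_le_max_right _ (by nlinarith)
    have p3 : max (1 - d.θ * d.w i * d.B n) 0
        ≤ max (1 - d.θ * d.w i * (d.B n + d.ρ n)) 0 + d.θ * d.w i * d.ρ n := by
      have q1 := le_max_left (1 - d.θ * d.w i * (d.B n + d.ρ n)) 0
      have q2 := le_max_right (1 - d.θ * d.w i * (d.B n + d.ρ n)) 0
      exact max_le (by nlinarith) (by linarith)
    refine ⟨mul_nonneg (h.hδ i) (by linarith), ?_⟩
    have p4 := mul_le_mul_of_nonneg_right (h.c1 i) (h.hρ n).le
    have p5 := mul_le_mul_of_nonneg_left (show max (1 - d.θ * d.w i * d.B n) 0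
      - max (1 - d.θ * d.w i * (d.B n + d.ρ n)) 0 ≤ d.θ * d.w i * d.ρ n by linarith) (h.hδ i)
    nlinarith
  rw [e1]
  constructor
  · have := h.w_pos n
    have := h.hρ n
    exact add_nonneg (by positivity) (sum_nonneg fun i _ => (e2 i).1)
  · have := sum_Ico_le_telescope (fun i => d.B n * d.E i n - d.B (n + 1) * d.E i (n + 1))
      (fun i => d.ρ i * d.w i * d.ρ n) hkn fun i _ _ => by linarith [(e2 i).2]
    linarith

lemma G_bound (n k : ℕ) : |d.G n k - d.G n (k + 1)| ≤ d.ρ n * d.ρ k := by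
  rcases le_or_gt n k with hnk | hnk
  · obtain ⟨h1, h2⟩ := h.step_n hnk
    have e : d.G n k - d.G n (k + 1)
        = d.B n * (d.B k * d.hat n k - d.B (k + 1) * d.hat n (k + 1)) := by
      unfold G; rw [hatS_of_le hnk, hatS_of_le (show n ≤ k + 1 by omega)]; ring
    rw [e, abs_of_nonneg (mul_nonneg (h.hB n).le h1)]
    have h3 := mul_le_mul_of_nonneg_left h2 (h.hB n).le
    calc _ ≤ _ := h3
      _ = d.B n * d.w n * (d.ρ n * d.ρ k) := by ring
      _ = _ := by rw [h.Bw]; ring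
  · have e : d.G n k - d.G n (k + 1)
        = d.B k * d.B n * d.E k n - d.ρ k * (d.B n * d.hat (k + 1) n) := by
      unfold G
      rw [hatS_symm n k, hatS_symm n (k + 1), hatS_of_le hnk.le,
        hatS_of_le (show k + 1 ≤ n from hnk), hat_succ hnk, h.hBs k]
      ring
    rw [e, abs_le]
    have p1 : d.B n * d.hat (k + 1) n ≤ d.ρ n :=
      le_trans (mul_le_mul_of_nonneg_left (h.hat_le_zero _ _) (h.hB n).le) (h.c2 n)
    have p2 : d.a n * d.w n ≤ d.B n * d.hat (k + 1) n := by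
      have := mul_le_mul_of_nonneg_left (h.hat_ge (k + 1) n) (h.hB n).le
      calc _ = d.B n * d.w n * (d.a n * d.w n) := by rw [h.Bw]; ring
        _ = d.B n * (d.a n * d.w n ^ 2) := by ring
        _ ≤ _ := this
    have p3 := h.c3 k n hnk
    have p4 : 0 ≤ d.B k * d.B n * d.E k n :=
      mul_nonneg (mul_nonneg (h.hB k).le (h.hB n).le) (h.E_nonneg k n)
    have p5 := mul_le_mul_of_nonneg_left p1 (h.hρ k).le
    have p6 := mul_le_mul_of_nonneg_left p2 (h.hρ k).le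
    constructor <;> nlinarith

lemma G_zero (n : ℕ) : |d.G n 0| ≤ d.B 0 * d.ρ n := by
  have e : d.G n 0 = d.B 0 * (d.B n * d.hat 0 n) := by
    unfold G; rw [hatS_symm, hatS_of_le (Nat.zero_le n)]; ring
  rw [e, abs_of_nonneg (mul_nonneg (h.hB 0).le (mul_nonneg (h.hB n).le (h.hat_nonneg 0 n)))]
  exact mul_le_mul_of_nonneg_left (h.c2 n) (h.hB 0).le

omit h in
lemma sum_Ico_tel (f : ℕ → ℝ) {a b : ℕ} (hab : a ≤ b) :
    ∑ n ∈ Ico a b, (f n - f (n + 1)) = f a - f b := by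
  induction b, hab using Nat.le_induction with
  | base => simp
  | succ b hab ih => rw [sum_Ico_succ_top hab, ih]; ring

omit h in
lemma sum_K {k n M : ℕ} (hk : k ≤ M) (hn : n ≤ M) :
    ∑ i ∈ Ico k M, ∑ j ∈ Ico n M, d.K i j
      = d.hatS k n - (d.hatS k M + d.hatS M n - d.hatS M M) := by
  have e : ∀ i, ∑ j ∈ Ico n M, d.K i j
      = (d.hatS i n - d.hatS i M) - (d.hatS (i + 1) n - d.hatS (i + 1) M) := by
    intro i
    rw [← sum_Ico_tel (fun j => d.hatS i j) hn, ← sum_Ico_tel (fun j => d.hatS (i + 1) j) hn,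
      ← sum_sub_distrib]
    exact sum_congr rfl fun j _ => by unfold K; ring
  simp only [e]
  rw [sum_Ico_tel (fun i => d.hatS i n - d.hatS i M) hk]
  ring

theorem G_form_nonneg
    (hK : ∀ (N : ℕ) (u : ℕ → ℝ), 0 ≤ ∑ k ∈ range N, ∑ n ∈ range N, d.K k n * u k * u n)
    (hlim : Tendsto (fun n => d.ρ n * d.w n) atTop (𝓝 0)) (N : ℕ) (u : ℕ → ℝ) :
    0 ≤ ∑ k ∈ range N, ∑ n ∈ range N, d.G k n * u k * u n := by
  set v : ℕ → ℝ := fun k => d.B k * u k with hv
  have e0 : ∑ k ∈ range N, ∑ n ∈ range N, d.G k n * u k * u n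
      = ∑ k ∈ range N, ∑ n ∈ range N, d.hatS k n * v k * v n :=
    sum_congr rfl fun k _ => sum_congr rfl fun n _ => by simp only [hv, G]; ring
  rw [e0]
  have hle : ∀ k M, d.hat k M ≤ d.ρ M * d.w M := by
    intro k M
    have p1 := mul_le_mul_of_nonneg_right (h.c2 M) (h.w_pos M).le
    calc _ ≤ d.hat 0 M := h.hat_le_zero k M
      _ = d.B M * d.w M * d.hat 0 M := by rw [h.Bw]; ring
      _ = d.B M * d.hat 0 M * d.w M := by ring
      _ ≤ _ := p1
  have t1 : ∀ k, Tendsto (fun M => d.hatS k M) atTop (𝓝 0) := by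
    intro k
    refine squeeze_zero' (Eventually.of_forall fun M => h.hat_nonneg _ _) ?_ hlim
    filter_upwards [eventually_ge_atTop k] with M hM
    rw [hatS_of_le hM]; exact hle k M
  have t2 : Tendsto (fun M => d.hatS M M) atTop (𝓝 0) := by
    refine squeeze_zero (fun M => h.hat_nonneg _ _) (fun M => ?_) hlim
    rw [hatS_of_le le_rfl]; exact hle M M
  have t3 : Tendsto (fun M => ∑ k ∈ range N, ∑ n ∈ range N,
      (d.hatS k M + d.hatS M n - d.hatS M M) * v k * v n) atTop (𝓝 0) := by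
    have : (0 : ℝ) = ∑ k ∈ range N, ∑ n ∈ range N, (0 + 0 - 0) * v k * v n := by simp
    rw [this]
    refine tendsto_finsetSum _ fun k _ => tendsto_finsetSum _ fun n _ => ?_
    refine ((((t1 k).add ?_).sub t2).mul_const _).mul_const _
    simpa only [hatS_symm _ n] using t1 n
  refine le_of_tendsto t3 ?_
  filter_upwards [eventually_ge_atTop N] with M hM
  set U : ℕ → ℝ := fun i => ∑ k ∈ range N, if k ≤ i then v k else 0 with hU
  have hI : ∀ (f : ℕ → ℝ) (k : ℕ), ∑ i ∈ Ico k M, f i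
      = ∑ i ∈ range M, if k ≤ i then f i else 0 := by
    intro f k
    rw [← sum_filter]
    refine sum_congr ?_ fun _ _ => rfl
    ext i; simp [and_comm]
  have e1 : ∑ i ∈ range M, ∑ j ∈ range M, d.K i j * U i * U j
      = ∑ k ∈ range N, ∑ n ∈ range N, (∑ i ∈ Ico k M, ∑ j ∈ Ico n M, d.K i j) * v k * v n := by
    have e2 : ∀ i j, d.K i j * U i * U j = ∑ k ∈ range N, ∑ n ∈ range N,
        (if k ≤ i then (if n ≤ j then d.K i j else 0) else 0) * v k * v n := by
      intro i j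
      simp only [hU]
      rw [mul_assoc, sum_mul_sum, mul_sum]
      refine sum_congr rfl fun k _ => ?_
      rw [mul_sum]
      refine sum_congr rfl fun n _ => ?_
      split_ifs <;> ring
    simp only [e2, hI]
    calc _ = ∑ i ∈ range M, ∑ k ∈ range N, ∑ j ∈ range M, ∑ n ∈ range N,
          (if k ≤ i then (if n ≤ j then d.K i j else 0) else 0) * v k * v n :=
          sum_congr rfl fun i _ => sum_comm
      _ = ∑ k ∈ range N, ∑ i ∈ range M, ∑ j ∈ range M, ∑ n ∈ range N,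
          (if k ≤ i then (if n ≤ j then d.K i j else 0) else 0) * v k * v n := sum_comm
      _ = ∑ k ∈ range N, ∑ i ∈ range M, ∑ n ∈ range N, ∑ j ∈ range M,
          (if k ≤ i then (if n ≤ j then d.K i j else 0) else 0) * v k * v n :=
          sum_congr rfl fun k _ => sum_congr rfl fun i _ => sum_comm
      _ = ∑ k ∈ range N, ∑ n ∈ range N, ∑ i ∈ range M, ∑ j ∈ range M,
          (if k ≤ i then (if n ≤ j then d.K i j else 0) else 0) * v k * v n :=
          sum_congr rfl fun k _ => sum_comm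
      _ = _ := by
          refine sum_congr rfl fun k _ => sum_congr rfl fun n _ => ?_
          rw [sum_mul, sum_mul]
          refine sum_congr rfl fun i _ => ?_
          split_ifs
          · rw [sum_mul, sum_mul]
          · simp
  have e3 := hK M U
  rw [e1] at e3
  have e4 : ∑ k ∈ range N, ∑ n ∈ range N, (∑ i ∈ Ico k M, ∑ j ∈ Ico n M, d.K i j) * v k * v n
      = ∑ k ∈ range N, ∑ n ∈ range N, d.hatS k n * v k * v n
        - ∑ k ∈ range N, ∑ n ∈ range N, (d.hatS k M + d.hatS M n - d.hatS M M) * v k * v n := by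
    rw [← sum_sub_distrib]
    refine sum_congr rfl fun k hk => ?_
    rw [← sum_sub_distrib]
    refine sum_congr rfl fun n hn => ?_
    rw [sum_K (by have := mem_range.mp hk; omega) (by have := mem_range.mp hn; omega)]
    ring
  rw [e4] at e3
  linarith

end Good

end KData

end Pool.Agent.Lib.MP_19b6b2_an
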