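import Mathlib

namespace Pool.Agent.Lib.MP_19b6b2_an

open Real

noncomputable def lam (s : ℝ) : ℝ := (s + 1) ^ 2 / (s * (s + 2))

lemma lam_pos {s : ℝ} (hs : 0 < s) : 0 < lam s := by unfold lam; positivity

lemma lam_eq {s : ℝ} (hs : 0 < s) : lam s = 1 + 1 / (s * (s + 2)) := by
  unfold lam; field_simp; ring

lemma root_iff {s : ℝ} (hs : 0 < s) :
    (1 + s) ^ (1 / (2 + s)) * (1 + 1 / (1 + s)) = 1 + 1 / s ↔
      log (1 + s) = (2 + s) * log (lam s) := by
  have h1 : (1 + s) ^ (1 / (2 + s)) * (1 + 1 / (1 + s)) = 1 + 1 / s ↔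
      (1 + s) ^ (1 / (2 + s)) = lam s := by
    have e : (1 + 1 / s) = lam s * (1 + 1 / (1 + s)) := by unfold lam; field_simp; ring
    rw [e]
    exact mul_left_inj' (by positivity)
  rw [h1, rpow_def_of_pos (by positivity)]
  constructor
  · intro h
    rw [← h, log_exp]; field_simp
  · intro h
    rw [h, show (2 + s) * log (lam s) * (1 / (2 + s)) = log (lam s) by field_simp,
      exp_log (lam_pos hs)]

lemma lam_rpow {s : ℝ} (hs : 0 < s) (h : log (1 + s) = (2 + s) * log (lam s)) :
    lam s ^ (s + 2) = s + 1 := by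
  rw [rpow_def_of_pos (lam_pos hs), show log (lam s) * (s + 2) = log (1 + s) by rw [h]; ring,
    exp_log (by positivity)]
  ring

lemma log_le_half {y : ℝ} (hy : 1 ≤ y) : log y ≤ (y - y⁻¹) / 2 := by
  rw [← sinh_log (by linarith)]
  exact self_le_sinh_iff.2 (log_nonneg hy)

lemma root_bounds {s : ℝ} (hs : 1 < s) (h : log (1 + s) = (2 + s) * log (lam s)) :
    1.14 < s ∧ s < 1.17 := by
  have hs0 : 0 < s := by linarith
  have l2 := log_two_lt_d9
  have l2' := log_two_gt_d9
  constructor
  · by_contra hc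
    push Not at hc
    have a1 : log (1 + s) ≤ 0.7632 := by
      have : log (1 + s) = log 2 + log ((1 + s) / 2) := by
        rw [← log_mul (by norm_num) (by positivity)]; congr 1; ring
      have := log_le_sub_one_of_pos (show 0 < (1 + s) / 2 by positivity)
      linarith
    have a2 := le_log_one_add_of_nonneg (show 0 ≤ 1 / (s * (s + 2)) by positivity)
    rw [← lam_eq hs0] at a2
    have a3 : 2 * (1 / (s * (s + 2))) / (1 / (s * (s + 2)) + 2) = 2 / (2 * s ^ 2 + 4 * s + 1) := by
      field_simp; ring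
    rw [a3] at a2
    have a4 : 0.7632 < (2 + s) * (2 / (2 * s ^ 2 + 4 * s + 1)) := by
      rw [← mul_div_assoc, lt_div_iff₀ (by positivity)]; nlinarith
    have a5 := mul_le_mul_of_nonneg_left a2 (show 0 ≤ 2 + s by positivity)
    linarith
  · by_contra hc
    push Not at hc
    have a1 : 0.7746 ≤ log (1 + s) := by
      have e : log (2.17 : ℝ) = log 2 + log (1 + 0.085) := by
        rw [← log_mul (by norm_num) (by positivity)]; congr 1; norm_num
      have := le_log_one_add_of_nonneg (show (0 : ℝ) ≤ 0.085 by norm_num)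
      have b : log (2.17 : ℝ) ≤ log (1 + s) := log_le_log (by norm_num) (by linarith)
      norm_num at this e b ⊢
      linarith
    have a2 := log_le_half (show 1 ≤ lam s by rw [lam_eq hs0]; simp; positivity)
    have a3 : (2 + s) * ((lam s - (lam s)⁻¹) / 2)
        = (2 * s ^ 2 + 4 * s + 1) / (2 * s * (s + 1) ^ 2) := by
      unfold lam; field_simp; ring
    have a4 : (2 * s ^ 2 + 4 * s + 1) / (2 * s * (s + 1) ^ 2) < 0.7746 := by
      rw [div_lt_iff₀ (by positivity)]; nlinarith [mul_nonneg (sub_nonneg.2 hc) (sq_nonneg s)]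
    have a5 := mul_le_mul_of_nonneg_left a2 (show 0 ≤ 2 + s by positivity)
    linarith

lemma root_exists : ∃ s : ℝ, 1 < s ∧ log (1 + s) = (2 + s) * log (lam s) := by
  set F : ℝ → ℝ := fun s => log (1 + s) - (2 + s) * log (lam s) with hF
  have hc : ContinuousOn F (Set.Icc 1 2) := by
    intro s hs
    have hs0 : 0 < s := by linarith [hs.1]
    have h1 : ContinuousAt lam s := by
      unfold lam
      exact ContinuousAt.div (by fun_prop) (by fun_prop) (by positivity)
    refine ContinuousAt.continuousWithinAt ?_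
    exact (ContinuousAt.log (by fun_prop) (by positivity)).sub
      (ContinuousAt.mul (by fun_prop) (h1.log (lam_pos hs0).ne'))
  have h1 : F 1 < 0 := by
    have : log (1 + 1 : ℝ) < log ((4 / 3) ^ 3) := log_lt_log (by norm_num) (by norm_num)
    rw [log_pow] at this
    simp only [hF, lam]
    norm_num at this ⊢
    linarith
  have h2 : 0 < F 2 := by
    have : log ((9 / 8 : ℝ) ^ 4) < log (1 + 2) := log_lt_log (by norm_num) (by norm_num)
    rw [log_pow] at this
    simp only [hF, lam]
    norm_num at this ⊢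
    linarith
  obtain ⟨s, hs, h⟩ := intermediate_value_Ioo (show (1 : ℝ) ≤ 2 by norm_num) hc ⟨h1, h2⟩
  exact ⟨s, hs.1, by simp only [hF] at h; linarith⟩

/-- tangent line inequality for negative powers -/
lemma rpow_neg_tangent {x y p : ℝ} (hx : 0 < x) (hy : 0 < y) (hp : 0 ≤ p) :
    x ^ (-p) - p * (x ^ (-p) / x) * (y - x) ≤ y ^ (-p) := by
  have h1 : y ^ (-p) = x ^ (-p) * exp (-p * log (y / x)) := by
    rw [rpow_def_of_pos hy, rpow_def_of_pos hx, ← exp_add, log_div hy.ne' hx.ne']
    congr 1; ring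
  have h2 := log_le_sub_one_of_pos (div_pos hy hx)
  have h3 := add_one_le_exp (-p * log (y / x))
  have h4 : 1 - p * (y / x - 1) ≤ exp (-p * log (y / x)) := by nlinarith
  have h5 := mul_le_mul_of_nonneg_left h4 (rpow_pos_of_pos hx (-p)).le
  rw [h1]
  refine le_trans (le_of_eq ?_) h5
  field_simp

/-- the inequality in which the defining equation of the exponent enters -/
lemma key_max {s u : ℝ} (hs : 0 < s) (h : lam s ^ (s + 2) = s + 1) (hu : 0 < u) :
    (s + 1) * u ^ (s + 1) ≤ s * (u ^ (s + 1) * u) + s := by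
  have hl := lam_pos hs
  set t := u / lam s with ht
  have ht0 : 0 < t := div_pos hu hl
  have hu' : u = lam s * t := by rw [ht]; field_simp
  have b := rpow_one_add_le_one_add_mul_self (s := t ^ (s + 2) - 1)
    (by linarith [rpow_pos_of_pos ht0 (s + 2)]) (p := (s + 1) / (s + 2)) (by positivity)
    (by rw [div_le_one (by positivity)]; linarith)
  have et : t ^ (s + 2) = t ^ (s + 1) * t := by
    rw [← rpow_add_one ht0.ne']; congr 1; ring
  rw [add_sub_cancel, ← rpow_mul ht0.le, show (s + 2) * ((s + 1) / (s + 2)) = s + 1 by field_simp,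
    et] at b
  have e1 : lam s ^ (s + 1) * lam s = s + 1 := by
    rw [← rpow_add_one hl.ne', show s + 1 + 1 = s + 2 by ring, h]
  have e2 : lam s ^ (s + 1) = s * (s + 2) / (s + 1) := by
    have : lam s ^ (s + 1) = (s + 1) / lam s := by rw [eq_div_iff hl.ne', e1]
    rw [this]; unfold lam; field_simp
  have e3 : u ^ (s + 1) = lam s ^ (s + 1) * t ^ (s + 1) := by
    rw [hu', mul_rpow hl.le ht0.le]
  have e4 : u ^ (s + 1) * u = (s + 1) * (t ^ (s + 1) * t) := by
    calc _ = lam s ^ (s + 1) * t ^ (s + 1) * (lam s * t) := by rw [← e3, ← hu']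
      _ = (lam s ^ (s + 1) * lam s) * (t ^ (s + 1) * t) := by ring
      _ = _ := by rw [e1]
  rw [e4, e3, e2]
  set T := t ^ (s + 1)
  have b' : (s + 2) * T ≤ (s + 1) * (T * t) + 1 := by
    have := mul_le_mul_of_nonneg_left b (show 0 ≤ s + 2 by positivity)
    have e : (s + 2) * (1 + (s + 1) / (s + 2) * (T * t - 1)) = (s + 1) * (T * t) + 1 := by
      field_simp; ring
    linarith
  have e5 : (s + 1) * (s * (s + 2) / (s + 1) * T) = s * ((s + 2) * T) := by field_simp
  rw [e5]
  nlinarith

end Pool.Agent.Lib.MP_19b6b2_an
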