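import Mathlib
import Pool.Agent.Lib.MP_19b6b2_an.Root

namespace Pool.Agent.Lib.MP_19b6b2_an

open Real Finset Filter Topology

lemma rpow_neg_succ {x : ℝ} (hx : 0 < x) (p : ℝ) : x ^ (-(p + 1)) = x ^ (-p) / x := by
  rw [show -(p + 1) = -p - 1 by ring, rpow_sub_one hx.ne']

lemma rpow_neg_ratio {x y : ℝ} (hx : 0 < x) (hy : 0 < y) (p : ℝ) :
    x ^ (-p) = (y / x) ^ p * y ^ (-p) := by
  rw [div_rpow hy.le hx.le, rpow_neg hx.le, rpow_neg hy.le]
  have := rpow_pos_of_pos hy p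
  field_simp

lemma ratio_pow_le {u p : ℝ} (hu : 0 ≤ u) (hu' : u ≤ 1.28) (hp : 0 ≤ p) (hp' : p ≤ 3) :
    u ^ p ≤ 2.1 := by
  calc u ^ p ≤ (1.28 : ℝ) ^ p := rpow_le_rpow hu hu' hp
    _ ≤ (1.28 : ℝ) ^ ((3 : ℕ) : ℝ) := rpow_le_rpow_of_exponent_le (by norm_num) (by simpa using hp')
    _ ≤ 2.1 := by rw [rpow_natCast]; norm_num

/-- the positions -/
noncomputable def xs (s : ℝ) : ℕ → ℝ
  | 0 => 1000
  | k + 1 => xs s k + s * (xs s k ^ (-s) / xs s k)

/-- the step sizes -/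
noncomputable def rs (s : ℝ) (k : ℕ) : ℝ := s * (xs s k ^ (-s) / xs s k)

lemma xs_succ (s : ℝ) (k : ℕ) : xs s (k + 1) = xs s k + rs s k := rfl

section

variable {s : ℝ} (hs1 : 1.14 < s) (hs2 : s < 1.17)
include hs1

lemma xs_ge (k : ℕ) : 1000 ≤ xs s k := by
  induction k with
  | zero => exact le_rfl
  | succ k ih =>
    have h : 0 < xs s k := by linarith
    have : 0 < s := by linarith
    have : 0 ≤ s * (xs s k ^ (-s) / xs s k) := by positivity
    simp only [xs]; linarith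

lemma xs_pos (k : ℕ) : 0 < xs s k := by linarith [xs_ge hs1 k]

lemma qs_pos (k : ℕ) : 0 < xs s k ^ (-s) := rpow_pos_of_pos (xs_pos hs1 k) _

lemma rs_pos (k : ℕ) : 0 < rs s k := by
  have := xs_pos hs1 k
  have : 0 < s := by linarith
  unfold rs; positivity

lemma xs_mono : Monotone (xs s) :=
  monotone_nat_of_le_succ fun k => by rw [xs_succ]; linarith [rs_pos hs1 k]

lemma qs_le (k : ℕ) : xs s k ^ (-s) ≤ (xs s k)⁻¹ := by
  rw [← rpow_neg_one]
  exact rpow_le_rpow_of_exponent_le (by linarith [xs_ge hs1 k]) (by linarith)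

lemma rs_mul (k : ℕ) : rs s k * xs s k = s * xs s k ^ (-s) := by
  have := xs_pos hs1 k
  unfold rs; field_simp

lemma qs_succ_ge (k : ℕ) : xs s k ^ (-s) - rs s k ^ 2 ≤ xs s (k + 1) ^ (-s) := by
  have := rpow_neg_tangent (xs_pos hs1 k) (xs_pos hs1 (k + 1)) (show 0 ≤ s by linarith)
  rw [xs_succ, add_sub_cancel_left] at this
  rw [xs_succ]
  refine le_trans (le_of_eq ?_) this
  unfold rs; ring

lemma rs_succ (k : ℕ) : rs s (k + 1) * (1 + (s + 1) * (rs s k / xs s (k + 1))) ≤ rs s k := by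
  have := rpow_neg_tangent (xs_pos hs1 (k + 1)) (xs_pos hs1 k) (show 0 ≤ s + 1 by linarith)
  rw [rpow_neg_succ (xs_pos hs1 _), rpow_neg_succ (xs_pos hs1 _)] at this
  have h2 := mul_le_mul_of_nonneg_left this (show 0 ≤ s by linarith)
  refine le_trans (le_of_eq ?_) h2
  have e : xs s k - xs s (k + 1) = -rs s k := by rw [xs_succ]; ring
  rw [e]
  conv_lhs => rw [rs]
  ring

lemma rs_anti (k : ℕ) : rs s (k + 1) ≤ rs s k := by
  have h1 := rs_succ hs1 k
  have h2 := rs_pos hs1 (k + 1)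
  have h3 : 0 ≤ (s + 1) * (rs s k / xs s (k + 1)) :=
    mul_nonneg (by linarith) (div_pos (rs_pos hs1 k) (xs_pos hs1 _)).le
  nlinarith

lemma qs_succ_le (k : ℕ) : xs s (k + 1) ^ (-s) + rs s (k + 1) ^ 2 ≤ xs s k ^ (-s) := by
  have := rpow_neg_tangent (xs_pos hs1 (k + 1)) (xs_pos hs1 k) (show 0 ≤ s by linarith)
  have e : xs s k - xs s (k + 1) = -rs s k := by rw [xs_succ]; ring
  rw [e] at this
  have h1 := mul_le_mul_of_nonneg_left (rs_anti hs1 k) (rs_pos hs1 (k + 1)).le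
  have h2 : s * (xs s (k + 1) ^ (-s) / xs s (k + 1)) = rs s (k + 1) := rfl
  rw [h2] at this
  nlinarith

lemma exists_as : ∃ a : ℕ → ℝ, (∀ k, a (k + 1) = a k - rs s k ^ 2) ∧
    (∀ k, xs s k ^ (-s) ≤ a k) ∧ ∀ k, a (k + 1) ≤ xs s k ^ (-s) := by
  set u : ℕ → ℝ := fun k => ∑ j ∈ range k, rs s j ^ 2 + xs s k ^ (-s) with hu
  set v : ℕ → ℝ := fun k => ∑ j ∈ range (k + 1), rs s j ^ 2 + xs s k ^ (-s) with hv
  have hum : Monotone u := monotone_nat_of_le_succ fun k => by
    simp only [hu, sum_range_succ]; linarith [qs_succ_ge hs1 k]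
  have hvm : Antitone v := antitone_nat_of_succ_le fun k => by
    simp only [hv, sum_range_succ _ (k + 1)]; linarith [qs_succ_le hs1 k]
  have huv : ∀ k l, u k ≤ v l := by
    intro k l
    calc u k ≤ u (max k l) := hum (le_max_left _ _)
      _ ≤ v (max k l) := by simp only [hu, hv, sum_range_succ]; nlinarith [sq_nonneg (rs s (max k l))]
      _ ≤ v l := hvm (le_max_right _ _)
  have hb : BddAbove (Set.range u) := ⟨v 0, by rintro _ ⟨k, rfl⟩; exact huv k 0⟩
  refine ⟨fun k => (⨆ i, u i) - ∑ j ∈ range k, rs s j ^ 2, fun k => ?_, fun k => ?_, fun k => ?_⟩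
  · simp only [sum_range_succ]; ring
  · have := le_ciSup hb k
    simp only [hu] at this ⊢
    linarith
  · have : (⨆ i, u i) ≤ v k := ciSup_le fun i => huv i k
    simp only [hv] at this ⊢
    linarith

include hs2

lemma rs_le (k : ℕ) : rs s k * xs s k ^ 2 ≤ 1.17 := by
  have h1 := rs_mul hs1 k
  have h2 := qs_le hs1 k
  have h3 := xs_pos hs1 k
  have h4 : xs s k ^ (-s) * xs s k ≤ 1 := by
    have := mul_le_mul_of_nonneg_right h2 h3.le
    rwa [inv_mul_cancel₀ h3.ne'] at this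
  have h5 := mul_pos (qs_pos hs1 k) h3
  calc _ = rs s k * xs s k * xs s k := by ring
    _ = s * (xs s k ^ (-s) * xs s k) := by rw [h1]; ring
    _ ≤ 1.17 := by nlinarith

lemma rs_small (k : ℕ) : rs s k ≤ 0.000002 := by
  have h1 := rs_le hs1 hs2 k
  have h2 := xs_ge hs1 k
  have h3 := rs_pos hs1 k
  have : 1000 ^ 2 ≤ xs s k ^ 2 := by gcongr
  nlinarith

lemma growth : ∃ c : ℝ, 0 < c ∧ ∀ m : ℕ, 1 ≤ m → c * (m : ℝ) ^ (-(s / (s + 2))) ≤ xs s m ^ (-s) := by
  have hz : ∀ k, xs s k ^ (s + 2) ≤ xs s 0 ^ (s + 2) + 6 * k := by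
    intro k
    induction k with
    | zero => simp
    | succ k ih =>
      have hx := xs_pos hs1 k
      have hx' := xs_ge hs1 k
      have hr := rs_pos hs1 k
      have hr' := rs_small hs1 hs2 k
      set e := rs s k / xs s k with he
      have he0 : 0 < e := div_pos hr hx
      have he1 : e ≤ 0.001 := by rw [he, div_le_iff₀ hx]; nlinarith
      have e1 : xs s (k + 1) = xs s k * (1 + e) := by rw [xs_succ, he]; field_simp
      have e2 : (1 + e) ^ (s + 2) ≤ 1 + 5 * e := by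
        calc (1 + e) ^ (s + 2) ≤ (1 + e) ^ ((4 : ℕ) : ℝ) :=
              rpow_le_rpow_of_exponent_le (by linarith) (by push_cast; linarith)
          _ = (1 + e) ^ 4 := rpow_natCast _ _
          _ ≤ 1 + 5 * e := by nlinarith [mul_pos he0 he0, mul_pos (mul_pos he0 he0) he0]
      have e3 : xs s k ^ (s + 2) * e = s := by
        rw [he, rs, rpow_add hx, rpow_neg hx.le, rpow_two]
        have := rpow_pos_of_pos hx s
        field_simp
      have e4 := rpow_pos_of_pos hx (s + 2)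
      rw [e1, mul_rpow hx.le (by linarith)]
      push_cast
      nlinarith
  have h0 := rpow_pos_of_pos (xs_pos hs1 0) (s + 2)
  refine ⟨(xs s 0 ^ (s + 2) + 6) ^ (-(s / (s + 2))), by positivity, fun m hm => ?_⟩
  have hm' : (1 : ℝ) ≤ m := by exact_mod_cast hm
  have hx := xs_pos hs1 m
  have e : xs s m ^ (-s) = (xs s m ^ (s + 2)) ^ (-(s / (s + 2))) := by
    rw [← rpow_mul hx.le]; congr 1
    have : s + 2 ≠ 0 := by linarith
    field_simp
  rw [e, ← mul_rpow (by positivity) (by positivity)]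
  refine rpow_le_rpow_of_nonpos (by positivity) ?_ ?_
  · nlinarith [hz m]
  · have : 0 ≤ s / (s + 2) := div_nonneg (by linarith) (by linarith)
    linarith

end

end Pool.Agent.Lib.MP_19b6b2_an
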