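import Mathlib
import Pool.Agent.Lib.MP_19b6b2_an.Seq
import Pool.Agent.Lib.MP_19b6b2_an.Kernel

namespace Pool.Agent.Lib.MP_19b6b2_an

open Real Finset Filter Topology

noncomputable def den (s : ℝ) (k : ℕ) : ℝ := 1 - s * (s + 2) * (rs s k * (xs s k + 1)⁻¹)

noncomputable def As (s : ℝ) (a : ℕ → ℝ) (k : ℕ) : ℝ := (s + 1) ^ 2 * (a (k + 1) / den s k)

noncomputable def dat (s : ℝ) (a : ℕ → ℝ) : KData where
  a := a
  ρ := rs s
  B := fun k => xs s k + 1
  δ := fun k => As s a k * ((xs s k + 1)⁻¹ - (xs s (k + 1) + 1)⁻¹)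
  θ := s * (s + 2) / (s + 1) ^ 2

structure Par (s : ℝ) (a : ℕ → ℝ) : Prop where
  hs1 : 1.14 < s
  hs2 : s < 1.17
  hl : lam s ^ (s + 2) = s + 1
  has : ∀ k, a (k + 1) = a k - rs s k ^ 2
  hlo : ∀ k, xs s k ^ (-s) ≤ a k
  hhi : ∀ k, a (k + 1) ≤ xs s k ^ (-s)

namespace Par

variable {s : ℝ} {a : ℕ → ℝ} (h : Par s a)
include h

lemma x_ge (k : ℕ) : 1000 ≤ xs s k := xs_ge h.hs1 k
lemma x_pos (k : ℕ) : 0 < xs s k := xs_pos h.hs1 k
lemma r_pos (k : ℕ) : 0 < rs s k := rs_pos h.hs1 k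
lemma q_pos (k : ℕ) : 0 < xs s k ^ (-s) := qs_pos h.hs1 k
lemma a_pos (k : ℕ) : 0 < a k := (h.q_pos k).trans_le (h.hlo k)
lemma s_pos : 0 < s := by linarith [h.hs1]

lemma th_eq : (dat s a).θ = 1 - ((s + 1) ^ 2)⁻¹ := by
  have := h.s_pos
  simp only [dat]; field_simp; ring

lemma th_lo : 0.7816 ≤ (dat s a).θ := by
  have := h.s_pos
  simp only [dat]; rw [le_div_iff₀ (by positivity)]; nlinarith [h.hs1]

lemma th_hi : (dat s a).θ ≤ 0.7877 := by
  have := h.s_pos
  simp only [dat]; rw [div_le_iff₀ (by positivity)]; nlinarith [h.hs1, h.hs2]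

lemma th_mul : (dat s a).θ * (s + 1) ^ 2 = s * (s + 2) := by
  have := h.s_pos
  simp only [dat]; field_simp

/-- relative step -/
lemma e_le (k : ℕ) : rs s k * (xs s k)⁻¹ ≤ 0.000002 * (xs s k)⁻¹ :=
  mul_le_mul_of_nonneg_right (rs_small h.hs1 h.hs2 k) (inv_pos.2 (h.x_pos k)).le

lemma xinv_le (k : ℕ) : (xs s k)⁻¹ ≤ 0.001 := by
  rw [inv_le_comm₀ (h.x_pos k) (by norm_num)]; linarith [h.x_ge k]

lemma w_le (k : ℕ) : (xs s k + 1)⁻¹ ≤ (xs s k)⁻¹ :=
  inv_anti₀ (h.x_pos k) (by linarith)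

lemma den_ge (k : ℕ) : 1 - 0.00001 * (xs s k)⁻¹ ≤ den s k := by
  unfold den
  have h1 := h.e_le k
  have h2 := mul_le_mul_of_nonneg_left (h.w_le k) (h.r_pos k).le
  have h3 : s * (s + 2) ≤ 4 := by nlinarith [h.hs1, h.hs2]
  have h4 : 0 ≤ rs s k * (xs s k + 1)⁻¹ := by have := h.r_pos k; have := h.x_pos k; positivity
  have h5 := inv_pos.2 (h.x_pos k)
  nlinarith

lemma den_ge' (k : ℕ) : 0.9999 ≤ den s k := by linarith [h.den_ge k, h.xinv_le k]

lemma den_pos (k : ℕ) : 0 < den s k := by linarith [h.den_ge' k]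

lemma den_le (k : ℕ) : den s k ≤ 1 := by
  unfold den
  have := h.r_pos k; have := h.x_pos k; have := h.s_pos
  have : 0 ≤ s * (s + 2) * (rs s k * (xs s k + 1)⁻¹) := by positivity
  linarith

lemma A_pos (k : ℕ) : 0 < As s a k := by
  have := h.a_pos (k + 1); have := h.den_pos k; have := h.s_pos
  unfold As; positivity

lemma A_le (k : ℕ) : As s a k ≤ (s + 1) ^ 2 * (1.001 * xs s k ^ (-s)) := by
  unfold As
  refine mul_le_mul_of_nonneg_left ?_ (sq_nonneg _)
  rw [div_le_iff₀ (h.den_pos k)]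
  nlinarith [h.hhi k, h.den_ge' k, h.q_pos k]

lemma A_ge (k : ℕ) : (s + 1) ^ 2 * (0.999 * xs s k ^ (-s)) ≤ As s a k := by
  unfold As
  refine mul_le_mul_of_nonneg_left ?_ (sq_nonneg _)
  rw [le_div_iff₀ (h.den_pos k)]
  have h1 := qs_succ_ge h.hs1 k
  have h2 := h.hlo (k + 1)
  have h3 := rs_mul h.hs1 k
  have h4 := rs_small h.hs1 h.hs2 k
  have h5 := h.r_pos k
  have h6 := h.x_ge k
  have h7 := h.q_pos k
  have h8 : rs s k ≤ xs s k ^ (-s) := by nlinarith [h.hs2]
  have h9 : rs s k ^ 2 ≤ 0.000002 * xs s k ^ (-s) := by nlinarith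
  nlinarith [h.den_le k]

lemma w_eq (k : ℕ) : (dat s a).w k = (xs s k + 1)⁻¹ := by cases h; rfl

lemma w_pos (k : ℕ) : 0 < (dat s a).w k := by
  have := h.x_pos k; rw [h.w_eq]; positivity

lemma dw (k : ℕ) : (dat s a).w k - (dat s a).w (k + 1)
    = rs s k * (dat s a).w k * (dat s a).w (k + 1) := by
  have := h.x_pos k; have := h.r_pos k
  rw [h.w_eq, h.w_eq, xs_succ]; field_simp; ring

lemma dw_pos (k : ℕ) : 0 < (dat s a).w k - (dat s a).w (k + 1) := by
  have := h.w_pos k; have := h.w_pos (k + 1); have := h.r_pos k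
  rw [h.dw]; positivity

lemma dw_le (k : ℕ) : (dat s a).w k - (dat s a).w (k + 1) ≤ 0.001 * (dat s a).w (k + 1) := by
  rw [h.dw]
  refine mul_le_mul_of_nonneg_right ?_ (h.w_pos _).le
  have h1 := h.w_le k
  have h2 := h.xinv_le k
  have h3 := rs_small h.hs1 h.hs2 k
  have h4 := h.w_pos k
  rw [h.w_eq] at h4 ⊢
  nlinarith [h.r_pos k]

lemma d_eq (k : ℕ) : (dat s a).δ k = As s a k * ((dat s a).w k - (dat s a).w (k + 1)) := by
  cases h; rfl

lemma d_nonneg (k : ℕ) : 0 ≤ (dat s a).δ k := by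
  rw [h.d_eq]; exact (mul_pos (h.A_pos k) (h.dw_pos k)).le

lemma hE (k : ℕ) : (dat s a).E k (k + 1)
    = a (k + 1) * (dat s a).w (k + 1) * ((dat s a).w k - (dat s a).w (k + 1)) := by
  have e : (s + 1) ^ 2 * ((dat s a).w (k + 1) - (dat s a).θ * (dat s a).w k)
      = (dat s a).w (k + 1) * den s k := by
    have := h.x_pos k; have := h.r_pos k
    rw [mul_sub, ← mul_assoc, mul_comm _ (dat s a).θ, h.th_mul, h.w_eq, h.w_eq, xs_succ, den]
    field_simp; ring
  have e0 : 0 ≤ (dat s a).w (k + 1) - (dat s a).θ * (dat s a).w k := by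
    have := mul_pos (h.w_pos (k + 1)) (h.den_pos k)
    rw [← e] at this
    exact ((mul_pos_iff_of_pos_left (by have := h.s_pos; positivity)).1 this).le
  unfold KData.E
  rw [max_eq_left e0, h.d_eq, As]
  have := (h.den_pos k).ne'
  calc _ = a (k + 1) / den s k * ((dat s a).w k - (dat s a).w (k + 1))
        * ((s + 1) ^ 2 * ((dat s a).w (k + 1) - (dat s a).θ * (dat s a).w k)) := by ring
    _ = _ := by rw [e]; field_simp

lemma c1 (k : ℕ) : (dat s a).δ k * ((dat s a).θ * (dat s a).w k)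
    ≤ rs s k * (dat s a).w k - rs s (k + 1) * (dat s a).w (k + 1) := by
  have hx := h.x_ge k
  have hr := h.r_pos k
  have hr' := h.r_pos (k + 1)
  have hrs := rs_small h.hs1 h.hs2 k
  have h1 := rs_succ h.hs1 k
  have h2 := rs_mul h.hs1 k
  have h3 := h.hhi k
  have hd := h.den_ge k
  have hdp := h.den_pos k
  have hw := h.w_pos k
  have hw' := h.w_pos (k + 1)
  have hs := h.s_pos
  have hs1 := h.hs1
  have hs2 := h.hs2
  set x := xs s k with hxd
  set r := rs s k with hrd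
  set r' := rs s (k + 1) with hrd'
  have hx1 : xs s (k + 1) = x + r := xs_succ s k
  rw [hx1] at h1
  -- lower bound for the decrement
  have h4 : (s + 1) * r ^ 2 * (1 - 0.00001 * x⁻¹) ≤ (r - r') * x := by
    have e1 : r' * (x + r + (s + 1) * r) ≤ r * (x + r) := by
      have := mul_le_mul_of_nonneg_right h1 (show 0 ≤ x + r by linarith)
      refine le_trans (le_of_eq ?_) this
      have : x + r ≠ 0 := by linarith
      field_simp
    have e2 : (s + 1) * r ^ 2 ≤ (r - r') * (x + (s + 2) * r) := by nlinarith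
    have e3 : (1 - 0.00001 * x⁻¹) * (x + (s + 2) * r) ≤ x := by
      have : x⁻¹ * x = 1 := inv_mul_cancel₀ (by linarith)
      have : 0 < x⁻¹ := inv_pos.2 (by linarith)
      have : 0 ≤ x⁻¹ * ((s + 2) * r) := by positivity
      nlinarith
    have e4 : 0 ≤ r - r' := by linarith [rs_anti h.hs1 k]
    have e5 : 0 ≤ 1 - 0.00001 * x⁻¹ := by linarith [h.xinv_le k]
    calc _ ≤ (r - r') * (x + (s + 2) * r) * (1 - 0.00001 * x⁻¹) :=
          mul_le_mul_of_nonneg_right e2 e5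
      _ = (r - r') * ((1 - 0.00001 * x⁻¹) * (x + (s + 2) * r)) := by ring
      _ ≤ _ := mul_le_mul_of_nonneg_left e3 e4
  have hwx : (dat s a).w k * (x + 1) = 1 := by rw [h.w_eq]; exact inv_mul_cancel₀ (by linarith)
  have hwx' : (dat s a).w (k + 1) * (x + r + 1) = 1 := by
    rw [h.w_eq, hx1]; exact inv_mul_cancel₀ (by linarith)
  have hdw := h.dw k
  have hth := h.th_mul
  rw [h.d_eq, hdw, As]
  set w := (dat s a).w k
  set w' := (dat s a).w (k + 1)
  have e5 : r * w - r' * w' = w * w' * (r ^ 2 + (r - r') * (x + 1)) := by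
    linear_combination (-r * w) * hwx' + r' * w' * hwx
  have e6 : (s + 1) ^ 2 * (a (k + 1) / den s k) * (r * w * w') * ((dat s a).θ * w)
      = w * w' * ((s + 2) * r * (s * a (k + 1) * w / den s k)) := by
    calc _ = ((dat s a).θ * (s + 1) ^ 2) * (a (k + 1) / den s k) * (r * w * w') * w := by ring
      _ = _ := by rw [hth]; ring
  rw [e5, e6]
  refine mul_le_mul_of_nonneg_left ?_ (by positivity)
  have hxi : 0 < x⁻¹ := inv_pos.2 (by linarith)
  have hxi' := h.xinv_le k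
  have e7 : s * a (k + 1) * w / den s k ≤ r * (1 - 0.00001 * x⁻¹) := by
    rw [div_le_iff₀ hdp]
    have f1 : s * a (k + 1) * w ≤ r * (x * w) := by
      have := mul_le_mul_of_nonneg_left h3 hs.le
      nlinarith
    have f2 : x * w ≤ 1 - 0.5 * x⁻¹ := by
      have : 0.5 * x⁻¹ ≤ w := by
        have : x⁻¹ * x = 1 := inv_mul_cancel₀ (by linarith)
        nlinarith
      linarith
    have f3 : 1 - 0.5 * x⁻¹ ≤ (1 - 0.00001 * x⁻¹) * den s k := by nlinarith
    nlinarith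
  have e8 := mul_le_mul_of_nonneg_left e7 (show 0 ≤ (s + 2) * r by positivity)
  have e9 : 0 ≤ r - r' := by linarith [rs_anti h.hs1 k]
  have e10 : 0 ≤ r ^ 2 * x⁻¹ := by positivity
  nlinarith

lemma BE (i n : ℕ) : (dat s a).B n * (dat s a).E i n
    = (dat s a).δ i * max (1 - (dat s a).θ * (dat s a).w i * (xs s n + 1)) 0 := by
  have := h.x_pos n
  unfold KData.E
  rw [mul_left_comm, show (dat s a).B n = xs s n + 1 from rfl,
    mul_max_of_nonneg _ _ (by linarith : 0 ≤ xs s n + 1), mul_zero, mul_sub, h.w_eq n,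
    mul_inv_cancel₀ (by linarith)]
  ring_nf

lemma window {k n : ℕ} (hw : (dat s a).θ * (xs s n + 1) < xs s k + 1) :
    xs s n / xs s k ≤ 1.28 := by
  rw [div_le_iff₀ (h.x_pos k)]
  have := h.th_lo
  have := h.x_ge k
  have := h.x_ge n
  nlinarith

lemma c3 {k n : ℕ} (hkn : k < n) : (dat s a).B k * (dat s a).B n * (dat s a).E k n
    ≤ rs s k * rs s n + rs s k * (a n * (dat s a).w n) := by
  have hr := h.r_pos k
  have hrn := h.r_pos n
  have han := h.a_pos n
  have hwn := h.w_pos n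
  have hx := h.x_ge k
  have hxn := h.x_ge n
  have hs := h.s_pos
  rw [mul_assoc, h.BE]
  have hwx : (dat s a).w k * (xs s k + 1) = 1 := by
    rw [h.w_eq]; exact inv_mul_cancel₀ (by linarith)
  have hwk := h.w_pos k
  rcases le_or_gt (1 - (dat s a).θ * (dat s a).w k * (xs s n + 1)) 0 with hc | hc
  · rw [max_eq_right hc]; simp only [mul_zero]; positivity
  rw [max_eq_left hc.le]
  have hwin : (dat s a).θ * (xs s n + 1) < xs s k + 1 := by nlinarith
  have hrat := h.window hwin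
  have hmono := xs_mono h.hs1 hkn.le
  have hth := h.th_lo
  have f1 : (s + 1) ^ 2 * (1 - (dat s a).θ * (dat s a).w k * (xs s n + 1)) ≤ 1 := by
    have g1 : 1 ≤ (dat s a).w k * (xs s n + 1) := by nlinarith
    have g2 : 1 - (dat s a).θ * (dat s a).w k * (xs s n + 1) ≤ 1 - (dat s a).θ := by nlinarith
    have g3 := mul_le_mul_of_nonneg_left g2 (sq_nonneg (s + 1))
    have g4 := h.th_mul
    nlinarith
  have f2 : (dat s a).B k * (dat s a).δ k = As s a k * (rs s k * (dat s a).w (k + 1)) := by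
    rw [h.d_eq, h.dw, show (dat s a).B k = xs s k + 1 from rfl]
    linear_combination As s a k * rs s k * (dat s a).w (k + 1) * hwx
  have f3 : (dat s a).w (k + 1) ≤ (xs s k)⁻¹ := by linarith [h.dw_pos k, h.w_le k, h.w_eq k]
  have f4 : xs s k ^ (-s) * (xs s k)⁻¹ ≤ 2.1 * (xs s n ^ (-s) / xs s n) := by
    rw [← div_eq_mul_inv, ← rpow_neg_succ (h.x_pos k), ← rpow_neg_succ (h.x_pos n),
      rpow_neg_ratio (h.x_pos k) (h.x_pos n)]
    refine mul_le_mul_of_nonneg_right ?_ (rpow_pos_of_pos (h.x_pos n) _).le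
    exact ratio_pow_le (div_pos (h.x_pos n) (h.x_pos k)).le hrat (by linarith) (by linarith [h.hs2])
  have f5 : 0.999 * (xs s n ^ (-s) / xs s n) ≤ a n * (dat s a).w n := by
    have g1 : 0.999 * (xs s n)⁻¹ ≤ (dat s a).w n := by
      rw [h.w_eq, ← div_eq_mul_inv, ← one_div, div_le_div_iff₀ (by linarith) (by linarith)]
      linarith
    have g2 := mul_le_mul (h.hlo n) g1 (by have := h.x_pos n; positivity) han.le
    refine le_trans (le_of_eq ?_) g2
    ring
  have f6 : rs s n = s * (xs s n ^ (-s) / xs s n) := rfl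
  have f7 : 0 < xs s n ^ (-s) / xs s n := div_pos (h.q_pos n) (h.x_pos n)
  have hq := h.q_pos k
  have hw1 := h.w_pos (k + 1)
  calc _ = As s a k * (rs s k * (dat s a).w (k + 1))
        * (1 - (dat s a).θ * (dat s a).w k * (xs s n + 1)) := by rw [← mul_assoc, f2]
    _ ≤ (s + 1) ^ 2 * (1.001 * xs s k ^ (-s)) * (rs s k * (xs s k)⁻¹)
        * (1 - (dat s a).θ * (dat s a).w k * (xs s n + 1)) := by
          gcongr
          exact h.A_le k
    _ = 1.001 * rs s k * (xs s k ^ (-s) * (xs s k)⁻¹)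
        * ((s + 1) ^ 2 * (1 - (dat s a).θ * (dat s a).w k * (xs s n + 1))) := by ring
    _ ≤ 1.001 * rs s k * (2.1 * (xs s n ^ (-s) / xs s n)) * 1 := by gcongr
    _ ≤ _ := by
        rw [← mul_add, mul_one, mul_comm 1.001, mul_assoc]
        refine mul_le_mul_of_nonneg_left ?_ hr.le
        nlinarith [h.hs1]

end Par

end Pool.Agent.Lib.MP_19b6b2_an
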