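import Mathlib
import Pool.Agent.Lib.MP_19b6b2_an.Inst

namespace Pool.Agent.Lib.MP_19b6b2_an

open Real Finset Filter Topology

noncomputable def Pt (s η Y X : ℝ) : ℝ :=
  (1 + η) * (s + 1) * X ^ (-(s + 1)) - s * Y * (X ^ (-(s + 1)) / X)

lemma term_bound {s X r Y A θ η c : ℝ} (hs : 0 < s) (hX : 0 < X) (hr : 0 < r) (hY : 0 < Y)
    (hη : 0 ≤ η) (hc : 0 ≤ c) (hsmall : (s + 2) * (r / X) * (1 + η) ≤ η)
    (hθ : θ * (s + 1) ^ 2 = s * (s + 2)) (hwin : 0 ≤ 1 - θ * X⁻¹ * Y)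
    (hA : A ≤ c * ((s + 1) ^ 2 * X ^ (-s))) :
    A * (X⁻¹ - (X + r)⁻¹) * (1 - θ * X⁻¹ * Y) ≤ c * (Pt s η Y X - Pt s η Y (X + r)) := by
  have hX' : 0 < X + r := by linarith
  have T1 := rpow_neg_tangent hX' hX (show 0 ≤ s + 1 by linarith)
  have T2 := rpow_neg_tangent hX hX' (show 0 ≤ s + 1 + 1 by linarith)
  rw [rpow_neg_succ hX (s + 1), rpow_neg_succ hX' (s + 1)] at T2
  have hQ : X ^ (-s) = X ^ (-(s + 1)) * X := by rw [rpow_neg_succ hX]; field_simp
  unfold Pt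
  set R := X ^ (-(s + 1)) with hR
  set R' := (X + r) ^ (-(s + 1)) with hR'
  have hR0 : 0 < R := rpow_pos_of_pos hX _
  have d0 : 0 ≤ X⁻¹ - (X + r)⁻¹ := sub_nonneg.2 (inv_anti₀ hX (by linarith))
  have d1 : X⁻¹ - (X + r)⁻¹ ≤ r / X / X := by
    rw [show X⁻¹ - (X + r)⁻¹ = r / X / (X + r) by field_simp; ring]
    exact div_le_div_of_nonneg_left (by positivity) hX (by linarith)
  have e1 : A * (X⁻¹ - (X + r)⁻¹) * (1 - θ * X⁻¹ * Y)
      ≤ c * ((s + 1) ^ 2 * X ^ (-s)) * (r / X / X) * (1 - θ * X⁻¹ * Y) := by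
    refine mul_le_mul_of_nonneg_right ?_ hwin
    exact mul_le_mul hA d1 d0 (by positivity)
  refine e1.trans ?_
  have e2 : c * ((s + 1) ^ 2 * X ^ (-s)) * (r / X / X) * (1 - θ * X⁻¹ * Y)
      = c * ((s + 1) ^ 2 * r * (R / X) - s * Y * ((s + 2) * (R / X / X) * r)) := by
    rw [hQ]
    have : (s + 1) ^ 2 * (R * X) * (r / X / X) * (1 - θ * X⁻¹ * Y)
        = (s + 1) ^ 2 * r * (R / X) - (θ * (s + 1) ^ 2) * Y * (R / X / X * r) := by
      field_simp
    rw [mul_assoc c, mul_assoc c, this, hθ]; ring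
  rw [e2]
  refine mul_le_mul_of_nonneg_left ?_ hc
  have f1 : R / X ≤ (1 + η) * (R' / (X + r)) := by
    have g1 : R / X * (1 - (s + 2) * (r / X)) ≤ R' / (X + r) := by
      refine le_trans (le_of_eq ?_) T2
      field_simp; ring
    have g2 := mul_le_mul_of_nonneg_left g1 (show 0 ≤ 1 + η by linarith)
    have g3 : 0 < R / X := div_pos hR0 hX
    nlinarith
  have f2 : (s + 1) * r * (R' / (X + r)) ≤ R - R' := by linarith
  have f3 := mul_le_mul_of_nonneg_left f1 (show 0 ≤ (s + 1) ^ 2 * r by positivity)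
  have f4 := mul_le_mul_of_nonneg_left f2 (show 0 ≤ (1 + η) * (s + 1) by positivity)
  have f5 : R / X - R' / (X + r) ≤ (s + 2) * (R / X / X) * r := by linarith
  have f6 := mul_le_mul_of_nonneg_left f5 (show 0 ≤ s * Y by positivity)
  nlinarith

lemma Pt_le {s η Y X : ℝ} (hs : 0 < s) (hs2 : s < 1.17) (hl : lam s ^ (s + 2) = s + 1)
    (hX : 0 < X) (hY : 0 < Y) (hη : 0 ≤ η) (hu : Y / X ≤ 1.28) :
    Pt s η Y X - Pt s η Y Y ≤ (s - 1 + 5 * η) * Y ^ (-(s + 1)) := by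
  have hu0 : 0 < Y / X := div_pos hY hX
  have k1 := key_max hs hl hu0
  have k2 := ratio_pow_le hu0.le hu (show 0 ≤ s + 1 by linarith) (by linarith)
  unfold Pt
  rw [rpow_neg_ratio hX hY (s + 1)]
  set U := (Y / X) ^ (s + 1)
  set R := Y ^ (-(s + 1))
  have hR : 0 < R := rpow_pos_of_pos hY _
  have hU : 0 < U := rpow_pos_of_pos hu0 _
  have e : (1 + η) * (s + 1) * (U * R) - s * Y * (U * R / X)
      - ((1 + η) * (s + 1) * R - s * Y * (R / Y))
      = ((s + 1) * U - s * (U * (Y / X)) + η * ((s + 1) * U) - 1 - η * (s + 1)) * R := by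
    field_simp; ring
  rw [e]
  refine mul_le_mul_of_nonneg_right ?_ hR.le
  have k3 : (s + 1) * U ≤ 5 := by nlinarith
  nlinarith [mul_le_mul_of_nonneg_left k3 hη, mul_nonneg hη (show 0 ≤ s + 1 by linarith)]

namespace Par

variable {s : ℝ} {a : ℕ → ℝ} (h : Par s a)
include h

lemma q_le_Q (i : ℕ) : xs s i ^ (-s) * (1 - s * (xs s i)⁻¹) ≤ (xs s i + 1) ^ (-s) := by
  have := rpow_neg_tangent (h.x_pos i) (show 0 < xs s i + 1 by linarith [h.x_pos i]) h.s_pos.le
  refine le_trans (le_of_eq ?_) this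
  ring

lemma c2 (n : ℕ) : (dat s a).B n * (dat s a).hat 0 n ≤ rs s n := by
  classical
  have hs := h.s_pos
  have hs1 := h.hs1
  have hs2 := h.hs2
  have hxn := h.x_ge n
  have hth := h.th_lo
  have hth' := h.th_hi
  set Y := xs s n + 1 with hYd
  have hY : 0 < Y := by linarith
  set y := Y⁻¹ with hy
  have hy0 : 0 < y := inv_pos.2 hY
  have hyY : y * Y = 1 := inv_mul_cancel₀ hY.ne'
  have hy1 : y ≤ 0.001 := by nlinarith
  have hex : ∃ j, (dat s a).θ * Y < xs s j + 1 := ⟨n, by nlinarith⟩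
  set j := Nat.find hex with hj
  have hjn : j ≤ n := Nat.find_min' hex (by nlinarith)
  have hjs : (dat s a).θ * Y < xs s j + 1 := Nat.find_spec hex
  -- bound in the window
  have hxi : ∀ i, (dat s a).θ * Y < xs s i + 1 → (xs s i)⁻¹ ≤ 1.282 * y := by
    intro i hi
    have := h.x_pos i
    rw [inv_le_iff_one_le_mul₀ this]
    nlinarith
  have hq : ∀ i, (dat s a).θ * Y < xs s i + 1 → ∀ t : ℝ, 1 - 0.00002 * y ≤ t →
      xs s i ^ (-s) ≤ (1 + 1.6 * y) * (xs s i + 1) ^ (-s) * t := by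
    intro i hi t ht
    have g1 := h.q_le_Q i
    have g2 := hxi i hi
    have g3 := h.q_pos i
    have g4 : s * (xs s i)⁻¹ ≤ 1.5 * y := by
      have := inv_pos.2 (h.x_pos i)
      nlinarith
    have g5 : xs s i ^ (-s) * (1 - 1.5 * y) ≤ (xs s i + 1) ^ (-s) := by nlinarith
    have g6 : 1 ≤ (1 + 1.6 * y) * (1 - 1.5 * y) * (1 - 0.00002 * y) := by
      nlinarith [mul_pos hy0 hy0, mul_pos (mul_pos hy0 hy0) hy0]
    calc _ ≤ xs s i ^ (-s) * ((1 + 1.6 * y) * (1 - 1.5 * y) * (1 - 0.00002 * y)) :=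
          le_mul_of_one_le_right g3.le g6
      _ = (1 + 1.6 * y) * (xs s i ^ (-s) * (1 - 1.5 * y)) * (1 - 0.00002 * y) := by ring
      _ ≤ _ := by
          have : 0 ≤ 1 - 0.00002 * y := by linarith
          have := rpow_pos_of_pos (show 0 < xs s i + 1 by linarith [h.x_pos i]) (-s)
          gcongr
  have e0 : (dat s a).B n * (dat s a).hat 0 n
      = a n * y + ∑ i ∈ Ico j n, (dat s a).B n * (dat s a).E i n := by
    unfold KData.hat
    rw [mul_add, mul_sum, ← sum_Ico_consecutive _ (Nat.zero_le j) hjn]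
    have z : ∑ i ∈ Ico 0 j, (dat s a).B n * (dat s a).E i n = 0 := by
      refine sum_eq_zero fun i hi => ?_
      have hi' := Nat.find_min hex (mem_Ico.mp hi).2
      rw [h.BE, max_eq_right, mul_zero]
      have hp : 0 < xs s i + 1 := by linarith [h.x_pos i]
      have := mul_le_mul_of_nonneg_right (not_lt.mp hi') (inv_pos.2 hp).le
      rw [mul_inv_cancel₀ hp.ne'] at this
      rw [h.w_eq]
      linarith
    rw [z, zero_add, h.w_eq]
    congr 1
    change Y * (a n * y ^ 2) = a n * y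
    linear_combination a n * y * hyY
  have e1 : ∑ i ∈ Ico j n, (dat s a).B n * (dat s a).E i n
      ≤ (1 + 1.6 * y) * Pt s (0.01 * y) Y (xs s j + 1)
        - (1 + 1.6 * y) * Pt s (0.01 * y) Y (xs s n + 1) := by
    refine sum_Ico_le_telescope _ (fun i => (1 + 1.6 * y) * Pt s (0.01 * y) Y (xs s i + 1)) hjn
      fun i hi _ => ?_
    have hi' : (dat s a).θ * Y < xs s i + 1 := by linarith [xs_mono h.hs1 hi]
    have hp : 0 < xs s i + 1 := by linarith [h.x_pos i]
    have hwin : 0 ≤ 1 - (dat s a).θ * (xs s i + 1)⁻¹ * Y := by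
      have := mul_le_mul_of_nonneg_right hi'.le (inv_pos.2 hp).le
      rw [mul_inv_cancel₀ hp.ne'] at this
      linarith
    have g2 := hxi i hi'
    rw [h.BE, h.d_eq, h.w_eq, h.w_eq, max_eq_left hwin, ← mul_sub, xs_succ,
      show xs s i + rs s i + 1 = xs s i + 1 + rs s i by ring]
    refine term_bound hs hp (h.r_pos i) hY (by positivity) (by positivity) ?_ h.th_mul hwin ?_
    · have g3 := h.e_le i
      have g4 := mul_le_mul_of_nonneg_left (h.w_le i) (h.r_pos i).le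
      have g5 : rs s i / (xs s i + 1) ≤ 0.000003 * y := by rw [div_eq_mul_inv]; linarith
      have g6 : 0 ≤ rs s i / (xs s i + 1) := (div_pos (h.r_pos i) hp).le
      have g7 : (s + 2) * (1 + 0.01 * y) ≤ 4 := by nlinarith
      nlinarith
    · unfold As
      rw [mul_left_comm]
      refine mul_le_mul_of_nonneg_left ?_ (sq_nonneg _)
      rw [div_le_iff₀ (h.den_pos i)]
      exact (h.hhi i).trans (hq i hi' _ (by linarith [h.den_ge i]))
  have hu : Y / (xs s j + 1) ≤ 1.28 := by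
    rw [div_le_iff₀ (by linarith [h.x_pos j])]; nlinarith
  have e2 := Pt_le hs hs2 h.hl (show 0 < xs s j + 1 by linarith [h.x_pos j]) hY
    (show 0 ≤ 0.01 * y by positivity) hu
  have hR : Y ^ (-(s + 1)) = Y ^ (-s) * y := by rw [rpow_neg_succ hY, div_eq_mul_inv]
  have hR0 : 0 < Y ^ (-(s + 1)) := rpow_pos_of_pos hY _
  have e3 : a n * y ≤ (1 + 1.6 * y) * Y ^ (-(s + 1)) := by
    rw [hR, ← mul_assoc]
    refine mul_le_mul_of_nonneg_right ?_ hy0.le
    have g1 := hq n (by nlinarith) (1 - 0.00002 * y) le_rfl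
    have g2 : a n ≤ xs s n ^ (-s) + rs s n ^ 2 := by linarith [h.has n, h.hhi n]
    have g3 := rs_mul h.hs1 n
    have g4 := h.e_le n
    have g5 := hxi n (by nlinarith)
    have g6 := h.q_pos n
    have g7 : rs s n ^ 2 = s * xs s n ^ (-s) * (rs s n * (xs s n)⁻¹) := by
      rw [← g3]; have := h.x_pos n; field_simp
    have g8 : s * (rs s n * (xs s n)⁻¹) ≤ 0.00001 * y := by
      have : 0 ≤ rs s n * (xs s n)⁻¹ := by have := h.r_pos n; have := h.x_pos n; positivity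
      nlinarith
    have g9 : a n ≤ xs s n ^ (-s) * (1 + 0.00001 * y) := by nlinarith
    have g10 : 0 < (1 + 1.6 * y) * Y ^ (-s) := by positivity
    have g11 : (1 - 0.00002 * y) * (1 + 0.00001 * y) ≤ 1 := by nlinarith [mul_pos hy0 hy0]
    calc a n ≤ _ := g9
      _ ≤ (1 + 1.6 * y) * Y ^ (-s) * (1 - 0.00002 * y) * (1 + 0.00001 * y) := by gcongr
      _ = (1 + 1.6 * y) * Y ^ (-s) * ((1 - 0.00002 * y) * (1 + 0.00001 * y)) := by ring
      _ ≤ _ := mul_le_of_le_one_right g10.le g11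
  have e4 : s * (Y ^ (-(s + 1)) * (1 + (s + 1) * y)) ≤ rs s n := by
    have := rpow_neg_tangent hY (h.x_pos n) (show 0 ≤ s + 1 by linarith)
    rw [rpow_neg_succ (h.x_pos n)] at this
    refine mul_le_mul_of_nonneg_left (le_trans (le_of_eq ?_) this) hs.le
    rw [show xs s n - Y = -1 by rw [hYd]; ring, div_eq_mul_inv]
    ring
  have e5 := mul_le_mul_of_nonneg_left e2 (show 0 ≤ 1 + 1.6 * y by positivity)
  have e6 : (1 + 1.6 * y) * (s + 0.05 * y) ≤ s * (1 + (s + 1) * y) := by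
    have : 1.6 * s + 0.05 + 0.08 * y ≤ s * (s + 1) := by nlinarith
    nlinarith
  have e7 := mul_le_mul_of_nonneg_right e6 hR0.le
  rw [e0]
  nlinarith

lemma good : (dat s a).Good where
  hB k := by have := h.x_pos k; change 0 < xs s k + 1; linarith
  hρ k := h.r_pos k
  hBs k := by change xs s (k + 1) + 1 = xs s k + 1 + rs s k; rw [xs_succ]; ring
  ha k := (h.a_pos k).le
  has := h.has
  hδ := h.d_nonneg
  hθ := by linarith [h.th_lo]
  hE := h.hE
  c1 := h.c1
  c2 := h.c2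
  c3 _ _ hkn := h.c3 hkn

end Par

end Pool.Agent.Lib.MP_19b6b2_an
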