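import Mathlib
import Pool.Agent.Lib.MP_19b6b2_an.Inst2

namespace Pool.Agent.Lib.MP_19b6b2_an

open Real Finset Filter Topology

noncomputable def sg (s : ℝ) (k : ℕ) : ℝ := xs s k ^ (-((s - 1) / 2))

namespace Par

variable {s : ℝ} {a : ℕ → ℝ} (h : Par s a)
include h

lemma sg_pos (k : ℕ) : 0 < sg s k := rpow_pos_of_pos (h.x_pos k) _

lemma sg_sq (k : ℕ) : sg s k * sg s k = xs s k ^ (-s) * xs s k := by
  unfold sg
  rw [← rpow_add (h.x_pos k), ← rpow_add_one (h.x_pos k).ne']
  congr 1; ring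

lemma sg_anti {k n : ℕ} (hkn : k ≤ n) : sg s n ≤ sg s k :=
  rpow_le_rpow_of_nonpos (h.x_pos k) (xs_mono h.hs1 hkn) (by linarith [h.hs1])

lemma sg_le {k n : ℕ} (hw : xs s n / xs s k ≤ 1.28) (hkn : k ≤ n) : sg s k ≤ 1.024 * sg s n := by
  unfold sg
  rw [rpow_neg_ratio (h.x_pos k) (h.x_pos n)]
  refine mul_le_mul_of_nonneg_right ?_ (rpow_pos_of_pos (h.x_pos n) _).le
  have h1 : 1 ≤ xs s n / xs s k := (one_le_div (h.x_pos k)).2 (xs_mono h.hs1 hkn)
  have := rpow_one_add_le_one_add_mul_self (s := xs s n / xs s k - 1) (by linarith)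
    (p := (s - 1) / 2) (by linarith [h.hs1]) (by linarith [h.hs2])
  rw [add_sub_cancel] at this
  nlinarith [h.hs1, h.hs2]

lemma K_eq {k n : ℕ} (hkn : k < n) : (dat s a).K k n = (dat s a).δ k *
    (max ((dat s a).w n - (dat s a).θ * (dat s a).w k) 0
      - max ((dat s a).w (n + 1) - (dat s a).θ * (dat s a).w k) 0) := by
  cases h
  rw [KData.K_of_lt hkn]; unfold KData.E; ring

theorem K_form (N : ℕ) (u : ℕ → ℝ) :
    0 ≤ ∑ k ∈ range N, ∑ n ∈ range N, (dat s a).K k n * u k * u n := by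
  have hs := h.s_pos
  set w := (dat s a).w with hw
  set D : ℕ → ℝ := fun k => (w k - w (k + 1)) * (s + 1) * sg s k with hD
  have hD0 : ∀ k, 0 < D k := fun k => by
    have := h.dw_pos k; have := h.sg_pos k; simp only [hD]; positivity
  have hl : ∀ k n, 0 ≤ max (w n - (dat s a).θ * w k) 0 - max (w (n + 1) - (dat s a).θ * w k) 0 ∧
      max (w n - (dat s a).θ * w k) 0 - max (w (n + 1) - (dat s a).θ * w k) 0
        ≤ w n - w (n + 1) := by
    intro k n
    have h1 := h.dw_pos n
    constructor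
    · exact sub_nonneg.2 (max_le_max_right _ (by linarith))
    · have q1 := le_max_left (w (n + 1) - (dat s a).θ * w k) 0
      have q2 := le_max_right (w (n + 1) - (dat s a).θ * w k) 0
      have : max (w n - (dat s a).θ * w k) 0
          ≤ max (w (n + 1) - (dat s a).θ * w k) 0 + (w n - w (n + 1)) :=
        max_le (by linarith) (by linarith)
      linarith
  have hz : ∀ k n, k < n → w n ≤ (dat s a).θ * w k → (dat s a).K k n = 0 := by
    intro k n hkn hc
    rw [h.K_eq hkn, max_eq_right (by linarith), max_eq_right (by linarith [h.dw_pos n])]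
    simp
  have key := band_form_nonneg w (fun k n => (dat s a).K k n / (D k * D n)) h.w_pos
    (fun n => by linarith [h.dw_pos n]) h.dw_le
    (fun k n => by rw [KData.K_symm, mul_comm (D k)]) ?_ ?_ ?_ ?_ ?_ N (fun k => D k * u k)
  · refine key.trans (le_of_eq (sum_congr rfl fun k _ => sum_congr rfl fun n _ => ?_))
    have := (hD0 k).ne'
    have := (hD0 n).ne'
    field_simp
  · intro k n hkn
    refine div_nonneg ?_ (mul_pos (hD0 k) (hD0 n)).le
    rw [h.K_eq hkn]
    exact mul_nonneg (h.d_nonneg k) (hl k n).1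
  · intro k n hkn
    have hwk := h.w_pos k
    rcases le_or_gt (w n) ((dat s a).θ * w k) with hc | hc
    · rw [hz k n hkn hc, zero_div]; positivity
    rw [div_le_iff₀ (mul_pos (hD0 k) (hD0 n)), h.K_eq hkn, h.d_eq]
    have hxk := h.x_pos k
    have hxn := h.x_pos n
    have hwin : (dat s a).θ * (xs s n + 1) < xs s k + 1 := by
      simp only [hw, h.w_eq] at hc
      rw [← div_eq_mul_inv, ← one_div, div_lt_div_iff₀ (by linarith) (by linarith)] at hc
      linarith
    have g1 := h.sg_le (h.window hwin) hkn.le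
    have g2 := h.sg_sq k
    have g3 := h.A_le k
    have g4 : (xs s k)⁻¹ ≤ 1.001 * w k := by
      simp only [hw, h.w_eq]
      rw [← div_eq_mul_inv, ← one_div, div_le_div_iff₀ (by linarith) (by linarith)]
      linarith [h.x_ge k]
    have g5 : xs s k ^ (-s) = sg s k * sg s k * (xs s k)⁻¹ := by rw [g2]; field_simp
    have g6 := h.sg_pos k
    have g7 := h.sg_pos n
    have g8 : 1.001 * xs s k ^ (-s) ≤ 1.04 * w k * (sg s k * sg s n) := by
      rw [g5]
      calc _ ≤ 1.001 * (sg s k * (1.024 * sg s n) * (1.001 * w k)) := by gcongr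
        _ ≤ _ := by nlinarith [mul_pos (mul_pos g6 g7) hwk]
    have g9 := h.dw_pos k
    have g10 := h.dw_pos n
    calc _ ≤ (s + 1) ^ 2 * (1.04 * w k * (sg s k * sg s n)) * (w k - w (k + 1))
          * (w n - w (n + 1)) := by
          refine mul_le_mul (mul_le_mul_of_nonneg_right ?_ g9.le) (hl k n).2 (hl k n).1
            (by positivity)
          exact g3.trans (mul_le_mul_of_nonneg_left g8 (sq_nonneg _))
      _ = _ := by simp only [hD]; ring
  · intro k n hkn hc
    rw [hz k n hkn (by nlinarith [h.th_lo, h.w_pos k]), zero_div]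
  · intro k n hkn hc
    have hwk := h.w_pos k
    have g9 := h.dw_pos k
    have g10 := h.dw_pos n
    have g11 := h.dw_le n
    have g12 : (dat s a).θ * w k ≤ w (n + 1) := by nlinarith [h.th_hi]
    rw [le_div_iff₀ (mul_pos (hD0 k) (hD0 n)), h.K_eq hkn, h.d_eq, max_eq_left (by linarith),
      max_eq_left (by linarith)]
    have hxk := h.x_pos k
    have g2 := h.sg_sq k
    have g3 := h.A_ge k
    have g4 : w k ≤ (xs s k)⁻¹ := h.w_le k
    have g5 : xs s k ^ (-s) = sg s k * sg s k * (xs s k)⁻¹ := by rw [g2]; field_simp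
    have g6 := h.sg_pos k
    have g7 := h.sg_pos n
    have g1 := h.sg_anti hkn.le
    have g8 : 0.99 * w k * (sg s k * sg s n) ≤ 0.999 * xs s k ^ (-s) := by
      rw [g5]
      calc _ ≤ 0.999 * (sg s k * sg s n * w k) := by nlinarith [mul_pos (mul_pos g6 g7) hwk]
        _ ≤ _ := by gcongr
    calc _ = (s + 1) ^ 2 * (0.99 * w k * (sg s k * sg s n)) * (w k - w (k + 1))
          * (w n - w (n + 1)) := by simp only [hD]; ring
      _ ≤ As s a k * (w k - w (k + 1)) * (w n - w (n + 1)) := by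
          gcongr
          exact (mul_le_mul_of_nonneg_left g8 (sq_nonneg _)).trans g3
      _ = _ := by ring
  · intro k
    have g1 := h.good.K_self k
    have g2 := h.dw k
    have g3 := h.dw_pos k
    have g4 := h.sg_sq k
    have g5 := rs_mul h.hs1 k
    have hwk := h.w_pos k
    have hwk' := h.w_pos (k + 1)
    have hr := h.r_pos k
    have hx := h.x_pos k
    have hq := h.q_pos k
    rw [div_mul_eq_mul_div, le_div_iff₀ (mul_pos (hD0 k) (hD0 k))]
    have e : D k * D k = (w k - w (k + 1)) * ((w k - w (k + 1)) * ((s + 1) ^ 2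
        * (xs s k ^ (-s) * xs s k))) := by rw [← g4]; simp only [hD]; ring
    rw [e, mul_left_comm, mul_comm ((dat s a).K k k)]
    refine mul_le_mul_of_nonneg_left (le_trans ?_ g1) g3.le
    change _ ≤ rs s k ^ 2 * w k ^ 2
    have g6 : w k * xs s k ≤ 1 := by
      have := mul_le_mul_of_nonneg_right (h.w_le k) hx.le
      rwa [inv_mul_cancel₀ hx.ne'] at this
    have g7 : w (k + 1) * xs s k ≤ 1 := by nlinarith
    have g8 : 0.248 * (s + 1) ^ 2 ≤ s := by nlinarith [h.hs1, h.hs2]
    have g9 : xs s k ^ (-s) * s = rs s k * xs s k := by rw [g5]; ring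
    rw [g2]
    calc _ = rs s k * w k ^ 2 * (w k * (w (k + 1) * xs s k)
            * (xs s k ^ (-s) * (0.248 * (s + 1) ^ 2))) := by ring
      _ ≤ rs s k * w k ^ 2 * (w k * 1 * (xs s k ^ (-s) * s)) := by gcongr
      _ = rs s k ^ 2 * w k ^ 2 * (w k * xs s k) := by rw [g9]; ring
      _ ≤ _ := mul_le_of_le_one_right (by positivity) g6

lemma lim : Tendsto (fun n => (dat s a).ρ n * (dat s a).w n) atTop (𝓝 0) := by
  have hsum : Summable fun n => rs s n ^ 2 := by
    refine summable_of_sum_range_le (c := a 0) (fun n => sq_nonneg _) fun n => ?_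
    have : ∑ i ∈ range n, rs s i ^ 2 = a 0 - a n := by
      induction n with
      | zero => simp
      | succ n ih => rw [sum_range_succ, ih, h.has]; ring
    linarith [h.a_pos n]
  have t1 := hsum.tendsto_atTop_zero.sqrt
  simp only [sqrt_zero, sqrt_sq (h.r_pos _).le] at t1
  refine squeeze_zero (fun n => (mul_pos (h.r_pos n) (h.w_pos n)).le) (fun n => ?_) t1
  exact mul_le_of_le_one_right (h.r_pos n).le (by linarith [h.w_le n, h.xinv_le n, h.w_eq n])

end Par

theorem exists_kernel {s : ℝ} (hs1 : 1.14 < s) (hs2 : s < 1.17) (hl : lam s ^ (s + 2) = s + 1) :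
    ∃ d : KData, d.Good ∧
      (∀ (N : ℕ) (u : ℕ → ℝ), 0 ≤ ∑ k ∈ range N, ∑ n ∈ range N, d.G k n * u k * u n) ∧
      d.a 0 ≤ d.B 0 ^ 2 ∧
      ∃ c : ℝ, 0 < c ∧ ∀ m : ℕ, 1 ≤ m → c * (m : ℝ) ^ (-(s / (s + 2))) ≤ d.a m := by
  obtain ⟨a, h1, h2, h3⟩ := exists_as hs1
  have h : Par s a := ⟨hs1, hs2, hl, h1, h2, h3⟩
  obtain ⟨c, hc, hc'⟩ := growth hs1 hs2
  refine ⟨dat s a, h.good, h.good.G_form_nonneg h.K_form h.lim, ?_, c, hc,
    fun m hm => (hc' m hm).trans (h2 m)⟩
  change a 0 ≤ (xs s 0 + 1) ^ 2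
  have e1 := h1 0
  have e2 := h3 0
  have e3 := qs_le hs1 0
  have e4 := h.xinv_le 0
  have e5 := rs_small hs1 hs2 0
  have e6 := h.r_pos 0
  have e7 := h.x_ge 0
  nlinarith

end Pool.Agent.Lib.MP_19b6b2_an
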