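import Mathlib
import Pool.Agent.Lib.MP_19b6b2_an.Defs
import Pool.Agent.Lib.MP_19b6b2_an.Upper
import Pool.Agent.Lib.MP_19b6b2_an.Inst3

namespace Pool.Agent.Lib.MP_19b6b2_an

open Real Finset Filter Topology
open scoped InnerProductSpace MatrixOrder

variable {H : Type*} [NormedAddCommGroup H] [InnerProductSpace ℝ H]

lemma inner_le_of_A1 {D : Set H} {f h : H} (hf : f ∈ A1 D) {r : ℝ} (hr : 0 ≤ r)
    (hD : ∀ g ∈ D, |⟪h, g⟫_ℝ| ≤ r) : |⟪h, f⟫_ℝ| ≤ r := by
  refine closure_minimal (t := {f | |⟪h, f⟫_ℝ| ≤ r}) ?_ ?_ hf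
  · rintro _ ⟨n, c, g, hg, hc, rfl⟩
    change |⟪h, ∑ i, c i • g i⟫_ℝ| ≤ r
    rw [inner_sum]
    calc _ ≤ ∑ i, |⟪h, c i • g i⟫_ℝ| := abs_sum_le_sum_abs _ _
      _ ≤ ∑ i, |c i| * r := sum_le_sum fun i _ => by
          rw [real_inner_smul_right, abs_mul]
          exact mul_le_mul_of_nonneg_left (hD _ (hg i)) (abs_nonneg _)
      _ ≤ r := by rw [← sum_mul]; exact mul_le_of_le_one_left hr hc
  · exact isClosed_le (by fun_prop) continuous_const

lemma res_succ (f : H) (φ : ℕ → H) (k : ℕ) :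
    f - approx f φ (k + 1) = (f - approx f φ k) - ⟪f - approx f φ k, φ k⟫_ℝ • φ k := by
  simp only [approx]; abel

theorem pga_upper {s : ℝ} (hs1 : 1.14 < s) (hs2 : s < 1.17) (hl : lam s ^ (s + 2) = s + 1)
    {D : Set H} {f : H} {φ : ℕ → H} {N : ℕ∞} {m : ℕ} (hm : 1 ≤ m) (hN : (m : ℕ∞) ≤ N)
    (hD : IsDictionary D) (hf : f ∈ A1 D) (hφ : IsRealization D f φ N) :
    ‖f - approx f φ m‖ ^ 2 ≤ 30 * (m : ℝ) ^ (-(s / (s + 2))) := by
  set r : ℕ → H := fun k => f - approx f φ k with hr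
  have hφ' : ∀ k, k < m → φ k ∈ D ∧ ∀ g ∈ D, |⟪r k, g⟫_ℝ| ≤ |⟪r k, φ k⟫_ℝ| := fun k hk =>
    hφ k (lt_of_lt_of_le (by exact_mod_cast hk) hN)
  set ρ : ℕ → ℝ := fun k => if k < m then |⟪r k, φ k⟫_ℝ| else 0 with hρ
  set a : ℕ → ℝ := fun k => ‖r (min k m)‖ ^ 2 with ha
  set b : ℕ → ℝ := fun k => 1 + ∑ j ∈ range k, ρ j with hb
  have hρ0 : ∀ k, 0 ≤ ρ k := fun k => by simp only [hρ]; split_ifs <;> positivity
  have hrs : ∀ k, r (k + 1) = r k - ⟪r k, φ k⟫_ℝ • φ k := res_succ f φ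
  have hbs : ∀ k, b (k + 1) = b k + ρ k := fun k => by simp only [hb, sum_range_succ]; ring
  have has : ∀ k, a (k + 1) = a k - ρ k ^ 2 := by
    intro k
    by_cases hk : k < m
    · simp only [ha, hρ, hk, if_true, min_eq_left hk.le, min_eq_left (show k + 1 ≤ m from hk)]
      rw [hrs, norm_sub_sq_real, norm_smul, hD.1 _ (hφ' k hk).1, real_inner_smul_right, sq_abs,
        mul_one, norm_eq_abs, sq_abs]
      ring
    · simp only [ha, hρ, hk, if_false, min_eq_right (not_lt.mp hk),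
        min_eq_right (show m ≤ k + 1 by omega)]
      ring
  have ha0 : a 0 ≤ 1 := by
    have h1 : r 0 = f := by simp [hr, approx]
    have h2 := inner_le_of_A1 (h := f) hf (norm_nonneg f) fun g hg => by
      simpa [hD.1 g hg] using abs_real_inner_le_norm f g
    rw [real_inner_self_eq_norm_sq, abs_of_nonneg (sq_nonneg _)] at h2
    simp only [ha, Nat.zero_min, h1]
    nlinarith [norm_nonneg f]
  have h1 : ∀ n, n < m → ∀ k, k ≤ m → ⟪r n, r k⟫_ℝ ≤ ρ n * b k := by
    intro n hn k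
    have hρn : ρ n = |⟪r n, φ n⟫_ℝ| := if_pos hn
    induction k with
    | zero =>
      intro _
      have h1 : r 0 = f := by simp [hr, approx]
      have := inner_le_of_A1 (h := r n) hf (abs_nonneg _) (hφ' n hn).2
      rw [h1, hρn]
      simpa [hb] using (le_abs_self _).trans this
    | succ k ih =>
      intro hk
      have hk' : k < m := hk
      have hρk : ρ k = |⟪r k, φ k⟫_ℝ| := if_pos hk'
      rw [hrs, inner_sub_right, real_inner_smul_right, hbs]
      have e1 := ih hk'.le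
      have e2 := (hφ' n hn).2 _ (hφ' k hk').1
      have e3 : |⟪r k, φ k⟫_ℝ * ⟪r n, φ k⟫_ℝ| ≤ ρ k * ρ n := by
        rw [abs_mul, hρk, hρn]; exact mul_le_mul_of_nonneg_left e2 (abs_nonneg _)
      linarith [neg_abs_le (⟪r k, φ k⟫_ℝ * ⟪r n, φ k⟫_ℝ)]
  have h2 : ∀ k n, k ≤ n → n < m → a k - ρ k * (b n - b k) ≤ ⟪r k, r n⟫_ℝ := by
    intro k n hkn
    induction n, hkn using Nat.le_induction with
    | base =>
      intro hk
      simp only [ha, min_eq_left hk.le, real_inner_self_eq_norm_sq]; simp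
    | succ n hkn ih =>
      intro hn
      have hn' : n < m := by omega
      have hk' : k < m := by omega
      have hρn : ρ n = |⟪r n, φ n⟫_ℝ| := if_pos hn'
      have hρk : ρ k = |⟪r k, φ k⟫_ℝ| := if_pos hk'
      rw [hrs, inner_sub_right, real_inner_smul_right, hbs]
      have e1 := ih hn'
      have e2 := (hφ' k hk').2 _ (hφ' n hn').1
      have e3 : |⟪r n, φ n⟫_ℝ * ⟪r k, φ n⟫_ℝ| ≤ ρ n * ρ k := by
        rw [abs_mul, hρk, hρn]; exact mul_le_mul_of_nonneg_left e2 (abs_nonneg _)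
      linarith [le_abs_self (⟪r n, φ n⟫_ℝ * ⟪r k, φ n⟫_ℝ)]
  have hstar : ∀ k n, k ≤ n → n < m → a k ≤ ρ n * b k + ρ k * (b n - b k) := by
    intro k n hkn hn
    have e1 := h1 n hn k (by omega)
    have e2 := h2 k n hkn hn
    rw [real_inner_comm] at e1
    linarith
  have hb0 : b 0 = 1 := by simp [hb]
  have u1 := seq_upper hs1 hs2 hl m a b ρ ha0 hb0 (sq_nonneg _) hρ0 has hbs hstar
  have u2 := seq_upper2 m a b ρ ha0 hb0 (fun k => sq_nonneg _) hρ0 has hbs
    fun n hn => by simpa using hstar n n le_rfl hn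
  have u3 := seq_upper3 hs1 hm (sq_nonneg _)
    (le_add_of_nonneg_right (sum_nonneg fun j _ => hρ0 j)) u1 u2
  simpa only [min_self] using u3

lemma exists_gram (hH : ¬ FiniteDimensional ℝ H) (Γ : ℕ → ℕ → ℝ) (hs : ∀ k n, Γ k n = Γ n k)
    (N : ℕ) (hp : ∀ u : ℕ → ℝ, 0 ≤ ∑ k ∈ range N, ∑ n ∈ range N, Γ k n * u k * u n) :
    ∃ (v : ℕ → H) (e : H), ‖e‖ = 1 ∧ (∀ k, ⟪v k, e⟫_ℝ = 0) ∧
      ∀ k n, k < N → n < N → ⟪v k, v n⟫_ℝ = Γ k n := by
  classical
  have hr : ((N + 1 : ℕ) : Cardinal) ≤ Module.rank ℝ H := by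
    rw [FiniteDimensional, ← Module.rank_lt_aleph0_iff, not_lt] at hH
    exact Cardinal.natCast_lt_aleph0.le.trans hH
  obtain ⟨g, hg⟩ := exists_linearIndependent_of_le_rank hr
  have ho := InnerProductSpace.gramSchmidtNormed_orthonormal (𝕜 := ℝ) hg
  set o := InnerProductSpace.gramSchmidtNormed ℝ g
  set A : Matrix (Fin N) (Fin N) ℝ := fun i j => Γ i j with hA
  have hA' : A.PosSemidef := by
    refine Matrix.PosSemidef.of_dotProduct_mulVec_nonneg ?_ fun x => ?_
    · ext i j; simp [hA, Matrix.conjTranspose_apply, hs j i]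
    · have := hp fun k => if h : k < N then x ⟨k, h⟩ else 0
      refine this.trans (le_of_eq ?_)
      rw [← Fin.sum_univ_eq_sum_range (fun k => ∑ n ∈ range N, Γ k n
        * (if h : k < N then x ⟨k, h⟩ else 0) * (if h : n < N then x ⟨n, h⟩ else 0))]
      simp only [dotProduct, Matrix.mulVec, star_trivial, mul_sum]
      refine sum_congr rfl fun i _ => ?_
      rw [← Fin.sum_univ_eq_sum_range (fun n => Γ i n
        * (if h : (i : ℕ) < N then x ⟨i, h⟩ else 0) * (if h : n < N then x ⟨n, h⟩ else 0))]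
      refine sum_congr rfl fun j _ => ?_
      simp [hA]; ring
  obtain ⟨B, hB⟩ := CStarAlgebra.nonneg_iff_eq_star_mul_self.mp hA'.nonneg
  have ho' := ho.comp Fin.castSucc (Fin.castSucc_injective N)
  refine ⟨fun k => if h : k < N then ∑ j, B j ⟨k, h⟩ • o j.castSucc else 0, o (Fin.last N),
    ho.1 _, fun k => ?_, fun k n hk hn => ?_⟩
  · beta_reduce
    split_ifs with h
    · rw [sum_inner]
      refine sum_eq_zero fun j _ => ?_
      rw [real_inner_smul_left, ho.2 (Fin.castSucc_lt_last j).ne, mul_zero]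
    · simp
  · simp only [hk, hn, dif_pos]
    have := ho'.inner_sum (fun j => B j ⟨k, hk⟩) (fun j => B j ⟨n, hn⟩) univ
    simp only [Function.comp] at this
    rw [this]
    have e : Γ k n = A ⟨k, hk⟩ ⟨n, hn⟩ := rfl
    rw [e, hB]
    simp [Matrix.mul_apply, Matrix.star_eq_conjTranspose]

/-- residual sequence driven by a rule -/
noncomputable def drive (f : H) (p : ℕ → H → H) : ℕ → H
  | 0 => f
  | k + 1 => drive f p k - ⟪drive f p k, p k (drive f p k)⟫_ℝ • p k (drive f p k)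

lemma drive_eq (f : H) (p : ℕ → H → H) (k : ℕ) :
    f - approx f (fun k => p k (drive f p k)) k = drive f p k := by
  induction k with
  | zero => simp [approx, drive]
  | succ k ih => rw [res_succ, ih]; rfl

theorem pga_lower (hH : ¬ FiniteDimensional ℝ H) (d : KData) (h : d.Good)
    (hp : ∀ (N : ℕ) (u : ℕ → ℝ), 0 ≤ ∑ k ∈ range N, ∑ n ∈ range N, d.G k n * u k * u n)
    (h0 : d.a 0 ≤ d.B 0 ^ 2) (m : ℕ) :
    ∃ (D : Set H) (f : H) (φ : ℕ → H), IsDictionary D ∧ f ∈ A1 D ∧ IsRealization D f φ ⊤ ∧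
      ‖f - approx f φ m‖ ^ 2 = d.a m / d.B 0 ^ 2 := by
  classical
  have hB := h.hB 0
  obtain ⟨v, e, he, hve, hv⟩ := exists_gram hH (fun k n => d.G k n / d.B 0 ^ 2)
    (fun k n => by rw [KData.G_symm]) (m + 1) fun u => by
      have := div_nonneg (hp (m + 1) u) (sq_nonneg (d.B 0))
      refine this.trans (le_of_eq ?_)
      simp only [sum_div]
      exact sum_congr rfl fun k _ => sum_congr rfl fun n _ => by ring
  set ρ : ℕ → ℝ := fun k => d.ρ k / d.B 0 with hρ
  have hρ0 : ∀ k, 0 < ρ k := fun k => div_pos (h.hρ k) hB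
  set ψ : ℕ → H := fun k => (ρ k)⁻¹ • (v k - v (k + 1)) with hψ
  set t := √(1 - d.a 0 / d.B 0 ^ 2) with ht
  have ht2 : t ^ 2 = 1 - d.a 0 / d.B 0 ^ 2 :=
    sq_sqrt (sub_nonneg.2 ((div_le_one (by positivity)).2 h0))
  have hvψ : ∀ n k, n ≤ m → k < m →
      ⟪v n, ψ k⟫_ℝ = (d.G n k - d.G n (k + 1)) / (d.ρ k * d.B 0) := by
    intro n k hn hk
    simp only [hψ, hρ]
    rw [real_inner_smul_right, inner_sub_right, hv n k (by omega) (by omega),
      hv n (k + 1) (by omega) (by omega)]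
    have := (h.hρ k).ne'
    field_simp
  have hvψ' : ∀ k, k < m → ⟪v k, ψ k⟫_ℝ = ρ k := by
    intro k hk
    rw [hvψ k k hk.le hk, h.G_self, h.G_succ, h.has]
    have := (h.hρ k).ne'
    simp only [hρ]; field_simp; ring
  have hψ1 : ∀ k, k < m → ‖ψ k‖ = 1 := by
    intro k hk
    have e1 : ⟪v (k + 1), ψ k⟫_ℝ = 0 := by
      rw [hvψ (k + 1) k hk hk, KData.G_symm, h.G_succ, h.G_self]; simp
    have e2 : ⟪ψ k, ψ k⟫_ℝ = 1 := by
      conv_lhs => rw [show ⟪ψ k, ψ k⟫_ℝ = ⟪(ρ k)⁻¹ • (v k - v (k + 1)), ψ k⟫_ℝ from rfl]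
      rw [real_inner_smul_left, inner_sub_left, hvψ' k hk, e1, sub_zero,
        inv_mul_cancel₀ (hρ0 k).ne']
    rw [real_inner_self_eq_norm_sq] at e2
    nlinarith [norm_nonneg (ψ k)]
  have hg1 : ∀ c : ℝ, c ^ 2 = t ^ 2 → ‖v 0 + c • e‖ = 1 := by
    intro c hc
    have : ‖v 0 + c • e‖ ^ 2 = 1 := by
      rw [norm_add_sq_real, real_inner_smul_right, hve, norm_smul, he, mul_one, norm_eq_abs,
        sq_abs, ← real_inner_self_eq_norm_sq, hv 0 0 (by omega) (by omega), h.G_self, hc, ht2]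
      ring
    nlinarith [norm_nonneg (v 0 + c • e)]
  set F : Finset H := insert (v 0 + t • e) (insert (v 0 + (-t) • e) ((range m).image ψ)) with hF
  set V : Submodule ℝ H := Submodule.span ℝ (F : Set H) with hV
  have : FiniteDimensional ℝ V := FiniteDimensional.span_finset ℝ F
  set D : Set H := (F : Set H) ∪ {g | g ∈ Vᗮ ∧ ‖g‖ = 1} with hD
  have hFne : F.Nonempty := insert_nonempty _ _
  choose nx hnx hnx' using fun x : H => exists_max_image F (fun g => |⟪x, g⟫_ℝ|) hFne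
  have hp1 : v 0 + t • e ∈ F := mem_insert_self _ _
  have hp2 : v 0 + (-t) • e ∈ F := mem_insert_of_mem (mem_insert_self _ _)
  have hp3 : ∀ k, k < m → ψ k ∈ F := fun k hk =>
    mem_insert_of_mem (mem_insert_of_mem (mem_image_of_mem _ (mem_range.2 hk)))
  have hv0 : v 0 = (1 / 2 : ℝ) • (v 0 + t • e) + (1 / 2 : ℝ) • (v 0 + (-t) • e) := by module
  set p : ℕ → H → H := fun k x => if k < m then ψ k else nx x with hpd
  have hpF : ∀ k x, p k x ∈ F := fun k x => by
    simp only [hpd]; split_ifs with hk; exacts [hp3 k hk, hnx x]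
  have hpa : ∀ k x, k < m → p k x = ψ k := fun k x hk => if_pos hk
  have hpb : ∀ k x, ¬ k < m → p k x = nx x := fun k x hk => if_neg hk
  have hRV : ∀ k, drive (v 0) p k ∈ V := by
    intro k
    induction k with
    | zero =>
      change v 0 ∈ V
      rw [hv0]
      exact V.add_mem (V.smul_mem _ (Submodule.subset_span hp1))
        (V.smul_mem _ (Submodule.subset_span hp2))
    | succ k ih => exact V.sub_mem ih (V.smul_mem _ (Submodule.subset_span (hpF _ _)))
  have hRv : ∀ k, k ≤ m → drive (v 0) p k = v k := by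
    intro k
    induction k with
    | zero => intro _; rfl
    | succ k ih =>
      intro hk
      have hk' : k < m := hk
      rw [drive, ih hk'.le, hpa k _ hk', hvψ' k hk']
      simp only [hψ]
      rw [smul_smul, mul_inv_cancel₀ (hρ0 k).ne']; simp
  refine ⟨D, v 0, fun k => p k (drive (v 0) p k), ⟨?_, ?_⟩, ?_, ?_, ?_⟩
  · rintro g (hg | hg)
    · simp only [hF, coe_insert, coe_image, Set.mem_insert_iff, Set.mem_image, mem_coe,
        mem_range] at hg
      rcases hg with rfl | rfl | ⟨k, hk, rfl⟩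
      exacts [hg1 _ rfl, hg1 _ (by ring), hψ1 k hk]
    · exact hg.2
  · have : Submodule.span ℝ D = ⊤ := by
      rw [eq_top_iff, ← Submodule.sup_orthogonal_of_hasOrthogonalProjection (K := V)]
      refine sup_le (Submodule.span_mono Set.subset_union_left) fun x hx => ?_
      by_cases hx0 : x = 0
      · rw [hx0]; exact Submodule.zero_mem _
      have hn : ‖x‖ ≠ 0 := norm_ne_zero_iff.2 hx0
      have : x = ‖x‖ • (‖x‖⁻¹ • x) := by rw [smul_smul, mul_inv_cancel₀ hn, one_smul]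
      rw [this]
      refine Submodule.smul_mem _ _ (Submodule.subset_span (Or.inr ⟨Submodule.smul_mem _ _ hx, ?_⟩))
      rw [norm_smul, norm_inv, norm_norm, inv_mul_cancel₀ hn]
    rw [this]; simp
  · refine subset_closure ⟨2, ![1 / 2, 1 / 2], ![v 0 + t • e, v 0 + (-t) • e], ?_, ?_, ?_⟩
    · intro i; fin_cases i
      exacts [Or.inl hp1, Or.inl hp2]
    · simp [Fin.sum_univ_two]; norm_num
    · simpa [Fin.sum_univ_two] using hv0
  · intro k _
    rw [drive_eq]
    refine ⟨Or.inl (hpF _ _), ?_⟩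
    rintro g (hg | hg)
    · by_cases hk : k < m
      · simp only [hpa k _ hk, hRv k hk.le]
        rw [hvψ' k hk, abs_of_pos (hρ0 k)]
        have hz : ∀ c : ℝ, |⟪v k, v 0 + c • e⟫_ℝ| ≤ ρ k := by
          intro c
          rw [inner_add_right, real_inner_smul_right, hve, mul_zero, add_zero,
            hv k 0 (by omega) (by omega), abs_div, abs_of_pos (by positivity : 0 < d.B 0 ^ 2),
            div_le_iff₀ (by positivity)]
          refine (h.G_zero k).trans (le_of_eq ?_)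
          simp only [hρ]; field_simp
        simp only [hF, coe_insert, coe_image, Set.mem_insert_iff, Set.mem_image, mem_coe,
          mem_range] at hg
        rcases hg with rfl | rfl | ⟨j, hj, rfl⟩
        · exact hz _
        · exact hz _
        · have := h.hρ j
          rw [hvψ k j hk.le hj, abs_div, abs_of_pos (by positivity : 0 < d.ρ j * d.B 0),
            div_le_iff₀ (by positivity)]
          refine (h.G_bound k j).trans (le_of_eq ?_)
          simp only [hρ]; field_simp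
      · simp only [hpb k _ hk]
        exact hnx' _ g hg
    · rw [Submodule.inner_right_of_mem_orthogonal (hRV k) hg.1, abs_zero]
      exact abs_nonneg _
  · rw [drive_eq, hRv m le_rfl, ← real_inner_self_eq_norm_sq, hv m m (by omega) (by omega),
      h.G_self]

end Pool.Agent.Lib.MP_19b6b2_an
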